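import Pool.Agent.J6H2.WM.Thy

/-!
# MP_898f40_nt: integrality and l-independence of local factors at semistable primes
-/

set_option autoImplicit false

open Module Polynomial

namespace Pool.Agent.Results.MP_898f40_nt.SemistableLocalFactors

open Pool.Agent.J6H2.WM

/-- **Integrality and `l`-independence of local factors at semistable primes.** Let `X` be a smooth projective variety over a finite extension of `ℚ_p`, of dimension
`n`, with a projective strictly semistable model, and residue field with `q` elements. `𝒪` is the
system of the first terms of the `l`-adic weight spectral sequences, for the primes `l ≠ p`. Suppose: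

* `𝒪.Good p q n`: the known properties of the spectral sequences; the image of the projector `π` is
  polarised (Weil's positivity of `Tr (x* x)`, for `x ≠ 0` in the rational algebra generated by
  `π d` and `π δ`, `δ = [Λ, [N', d]]`); and the part of every term killed by `π` is multiplicity
  free: some operator commuting with `d` and `δ`, with its complex conjugate as adjoint, has simple
  eigenvalues there, given by a rational polynomial which does not depend on `l` (for example the
  Frobenius operator, if its eigenvalues are simple: `Pool.Agent.J6H2.WM.simpleOn_frobenius`);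
* `𝒪.Rational p`, `𝒪.Betti p B`: the traces of the words in the operators are rational and
  independent of `l` (true if `Λ` and `π` are algebraic), and so is the sum of the Betti numbers;
* `hI` (known): the Frobenius eigenvalues on the terms are algebraic integers.

Then for every `i` there is a polynomial `P` with integral coefficients such that
`det (1 - Φ T | V^I) = P` for `V = H^i(X, ℚ_l)` and all primes `l ≠ p` (`V^I` is the kernel of the
monodromy operator); and for the `p`-adic theory (more generally, for every theory `O` with the same
traces and the same sum of the Betti numbers) `det (1 - φ^f T | H^i_HK(X)^{N = 0}) = P` with the same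
polynomial `P`. -/
theorem result {p q n B : ℕ} (hq : q ≠ 0) (𝒪 : Family) (h : 𝒪.Good p q n) (hR : 𝒪.Rational p)
    (hB : 𝒪.Betti p B)
    (hI : ∃ (l : ℕ) (_ : Fact l.Prime) (M : ℤ[X]), l ≠ p ∧ M.Monic ∧ aeval (𝒪.O l).F M = 0)
    (i : ℤ) : ∃ P : ℤ[X],
    (∀ (l : ℕ) [Fact l.Prime], l ≠ p →
      ∀ (H : Type) [AddCommGroup H] [Module ℚ_[l] H] [FiniteDimensional ℚ_[l] H]
        (Φ N : End ℚ_[l] H) (ρ : 𝒪.V l →ₗ[ℚ_[l]] H), (𝒪.O l).Computes (i - n) Φ N ρ →
        LocalFactor Φ N (P.map (Int.castRingHom ℚ_[l]))) ∧
    ∀ (K V : Type) [Field K] [CharZero K] [AddCommGroup V] [Module K V]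
      [FiniteDimensional K V] (O : Ops K V), 𝒪.Companion p q n B O →
      ∀ (H : Type) [AddCommGroup H] [Module K H] [FiniteDimensional K H]
        (Φ N : End K H) (ρ : V →ₗ[K] H), O.Computes (i - n) Φ N ρ →
        LocalFactor Φ N (P.map (Int.castRingHom K)) :=
  resC hq h hR hB hI i

end Pool.Agent.Results.MP_898f40_nt.SemistableLocalFactors
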