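import Pool.Agent.J6H90.WT.Fin
import Pool.Agent.J6H90.WT.PWS
import Pool.Agent.J6H90.WT.PDUAL
import Pool.Agent.J6H90.WT.PBC
import Pool.Agent.J6H90.WT.PTRK
import Pool.Agent.J6H90.WT.PLOG
import Pool.Agent.J6H90.WT.PWMT
import Pool.Agent.J6H90.WT.PKT
import Pool.Agent.J6H90.WT.PREL
import Pool.Agent.J6H90.WT.PCYCFIN
import Pool.Agent.J6H90.WT.PCYC
import Pool.Agent.J6H29.ST.Loc
import Pool.Agent.J6H29.ST.Mono
import Pool.Agent.J6H29.ST.Fam
import Pool.Agent.J6H19.ST.Meas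
import Pool.Agent.J6H68.ST.Pur
import Pool.Agent.J6H73.ST.Good
import Pool.Agent.J6H74.ST.Int
import Pool.Agent.J6H95.ST.Odd
import Pool.Agent.J6H82.ST.Det
import Pool.Agent.J6H29.ST.Bnd
import Pool.Agent.J6H29.ST.ZarC

/-!
# Sharp density thresholds for the transfer of local Euler factors and of weight-monodromy

Let `K` be a number field (for example `ℚ`) and let `V_ℓ` and `W_ℓ`, for all primes `ℓ`, be the
`ℓ`-adic realisations, in degrees of the same weight `w`, of two motives `M` and `N` over `K`, of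
ranks `n` and `m`. Outside a finite set of places the characteristic polynomials of the geometric
Frobenius elements are rational, independent of `ℓ` and pure of weight `w` (Deligne; Katz and
Messing); let `a_v` be the difference of the traces. No assumption is made on the action of the
inertia groups on `V_ℓ`.

Suppose that, for a positive integer `d`, the number `d a_v ^ 2` is an integral multiple of
`N(v) ^ w` for all `v` in a set of places of upper density larger than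

* `1 - 2 / (n ^ 2 + m ^ 2)`, or
* `1 - 1 / c`, where `c` is the number of connected components of the Zariski closure of the image
  of the Galois group in `GL(V_ℓ₀) × GL(W_ℓ₀)` for one prime `ℓ₀` (so for connected monodromy every
  set of positive upper density is sufficient).

Then:

* if `w` is odd then `V_ℓ` and `W_ℓ` have the same trace function, that is, the same
  semisimplification, for all `ℓ`;
* if `w` is even then `a_v = N(v) ^ (w / 2) φ (F_v)` for all `v` outside the finite set, where `φ` is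
  a function with rational values on the Galois group of a finite extension of `K`;
* there is a finite extension of `K` over which `M` acquires good reduction at *all* places at which
  `N` has good reduction, and at all these places `v` of `K` the local factor
  `det (1 - F_v T | V_ℓ ^ I_v)` is a polynomial over `ℚ` independent of `ℓ`, with integral
  coefficients if `w ≥ 0` and those of `N` are integral (in the case `N = 0`, `m = 0`, all finite
  places of `K` are of this kind);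
* if the `W_ℓ` are semisimple then at *every* finite place `v` of `K` the weight-monodromy property
  of `W_ℓ` implies that of `V_ℓ`, and if it holds for all `ℓ` not below `v`, and the local factor of
  `N` at `v` is one rational polynomial for all these `ℓ`, then so is the local factor of `M` at `v`,
  and if `w ≥ 0` and the former is integral then the latter is integral.

The constants `2` and `1` in the thresholds are sharp: let `E` be an elliptic curve over `ℚ` with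
complex multiplication and `W = 0`. Then `n ^ 2 + m ^ 2 = 4` and `c = 2`, and `a_p = 0` for a set
of primes `p` of density `1 / 2`, but `w = 1` is odd and the trace function of `V_ℓ E` is not zero.

Proof. Put `T = tr V_ℓ - tr W_ℓ`, a central function on the compact group `G = Gal(K̄/K)`, twisted
by the power `- w / 2` of the cyclotomic character if `w` is even. By Chebotarev's theorem the Haar
measure of the closed set where `T` is not in a fixed finite set is at most the lower density `θ` of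
the bad places. There are `h_1, …, h_k` with `k ≤ n ^ 2 + m ^ 2` such that the function
`x ↦ T (g x)` depends linearly on the values `T (g h_j)`. As `k θ < 2` the set of the `g` for which
at most one of these values is bad has positive measure; so the set `X` of the `g` for which
`T (g ·)` lies on a certain affine line `L` of functions has positive measure. If `T` does not have
an open group of periods, then the fibres of `g ↦ T (g ·)` are null sets, and so are the sets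
`X ∩ y X` for all `y` which do not preserve `L`; hence the stabiliser of `L` is an open subgroup.
This gives an open normal subgroup `H` and a function `κ` on `H` with
`T (u x) = T (x) + κ (u) D (x)`, `D (x) = T (u₁ x) - T (x)`, and
`κ (u u') = κ (u) + κ (u') + c₀ κ (u) κ (u')`. For a Frobenius element `g` with `D (g) ≠ 0` the
numbers `T (g ^ j)` are rational, and their absolute values are bounded by purity (for all integers
`j`, positive or negative); this forces `κ (g ^ (2 f)) = 0`, `f = [G : H]`. By density the same holds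
for all `g` in a coset of `H`, so `κ (u ^ (2 f)) = 0` for all `u`, so `κ` has finitely many values: a
contradiction. If `w` is odd the line passes through zero, `T` is multiplied by a character on `H`,
and one gets `T = 0` in the same way. For the second threshold a noetherian argument shows that a
Zariski closed subset of positive measure contains a coset of an open subgroup; as
`det (F_v | V_ℓ) ^ 2 = N(v) ^ (n w)` this can be applied to the sets `T ^ 2 = y χ ^ w`, and shows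
that `a_v ^ 2 / N(v) ^ w` takes finitely many values.
-/

set_option autoImplicit false

namespace Pool.Agent.Results.MP_898f40_nt.SharpThreshold

open NumberField IsDedekindDomain Filter Matrix Polynomial

/-- the absolute Galois group of the field `K`, with the Krull topology -/
abbrev AbsGal (K : Type) [Field K] : Type := Gal(AlgebraicClosure K/K)

section
variable {K : Type} [Field K]

/-- `g` belongs to the inertia group at the ideal `Q` of the ring of all algebraic integers. -/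
def InInertia (Q : Ideal (𝓞 (AlgebraicClosure K))) (g : AbsGal K) : Prop :=
  ∀ x : 𝓞 (AlgebraicClosure K), g • x - x ∈ Q

/-- `g` is an arithmetic Frobenius element at `Q`, for a residue field with `q` elements of the
place below `Q`. -/
def FrobeniusAt (Q : Ideal (𝓞 (AlgebraicClosure K))) (q : ℕ) (g : AbsGal K) : Prop :=
  ∀ x : 𝓞 (AlgebraicClosure K), g • x - x ^ q ∈ Q

/-- `Q` is a maximal ideal of the ring of all algebraic integers which lies above the finite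
place `v` of `K`. -/
def LiesAbove [NumberField K] (v : HeightOneSpectrum (𝓞 K))
    (Q : Ideal (𝓞 (AlgebraicClosure K))) : Prop :=
  Q.IsMaximal ∧ Q.comap (algebraMap (𝓞 K) (𝓞 (AlgebraicClosure K))) = v.asIdeal

/-- the matrix of `g` -/
noncomputable def mat {F : Type} [Field F] {n : ℕ} (ρ : AbsGal K →* GL (Fin n) F) (g : AbsGal K) :
    Matrix (Fin n) (Fin n) F :=
  (ρ g : GL (Fin n) F)

/-- The representation `ρ` is semisimple: every stable subspace has a stable complement. -/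
def Semisimple {F : Type} [Field F] {n : ℕ} (ρ : AbsGal K →* GL (Fin n) F) : Prop :=
  ∀ S : Submodule F (Fin n → F), (∀ g, ∀ x ∈ S, mat ρ g *ᵥ x ∈ S) →
    ∃ T : Submodule F (Fin n → F), (∀ g, ∀ x ∈ T, mat ρ g *ᵥ x ∈ T) ∧ IsCompl S T

/-- the vectors which are fixed by the inertia group at `Q` -/
def invariants {F : Type} [Field F] {n : ℕ} (ρ : AbsGal K →* GL (Fin n) F)
    (Q : Ideal (𝓞 (AlgebraicClosure K))) : Submodule F (Fin n → F) where
  carrier := {x | ∀ g, InInertia Q g → mat ρ g *ᵥ x = x}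
  add_mem' := by
    intro x y hx hy g hg
    rw [Matrix.mulVec_add, hx g hg, hy g hg]
  zero_mem' := by
    intro g _
    rw [Matrix.mulVec_zero]
  smul_mem' := by
    intro c x hx g hg
    rw [Matrix.mulVec_smul, hx g hg]

/-- `f` is the polynomial `det (1 - g T)` of `g` on the invariants of the inertia group at `Q`: if
`A` is the matrix of `g` with respect to a basis `b` of the invariants then `f = det (1 - A T)`. -/
def IsLocalFactor {F : Type} [Field F] {n : ℕ} (ρ : AbsGal K →* GL (Fin n) F)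
    (Q : Ideal (𝓞 (AlgebraicClosure K))) (g : AbsGal K) (f : F[X]) : Prop :=
  ∃ (m : ℕ) (b : Module.Basis (Fin m) F (invariants ρ Q)) (A : Matrix (Fin m) (Fin m) F),
    (∀ j, mat ρ g *ᵥ (b j : Fin n → F) = ∑ i, A i j • (b i : Fin n → F)) ∧
    f = (1 - (X : F[X]) • A.map C).det

/-- For all primes `ℓ` not below `v` the local factor of `V_ℓ` at `v` is the polynomial `P` with
rational coefficients. (`Q` is a prime above `v` and `g` a geometric Frobenius element at `Q`.) -/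
def LocalFactorIs [NumberField K] {n : ℕ}
    (V : ∀ (ℓ : ℕ) [Fact ℓ.Prime], AbsGal K →* GL (Fin n) ℚ_[ℓ]) (v : HeightOneSpectrum (𝓞 K))
    (Q : Ideal (𝓞 (AlgebraicClosure K))) (g : AbsGal K) (P : ℚ[X]) : Prop :=
  ∀ (ℓ : ℕ) [Fact ℓ.Prime], (ℓ : 𝓞 K) ∉ v.asIdeal → ∀ f : ℚ_[ℓ][X],
    IsLocalFactor (V ℓ) Q g f ↔ f = P.map (algebraMap ℚ ℚ_[ℓ])

/-- The family `V` is pure of weight `w` at the place `v`: for `ℓ` not below `v` the characteristic
polynomial of the geometric Frobenius elements at `v` is one polynomial over `ℚ`, whose complex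
roots have absolute value `N(v) ^ (w / 2)`. -/
def PureAt [NumberField K] {n : ℕ} (V : ∀ (ℓ : ℕ) [Fact ℓ.Prime], AbsGal K →* GL (Fin n) ℚ_[ℓ])
    (w : ℤ) (v : HeightOneSpectrum (𝓞 K)) : Prop :=
  ∃ h : ℚ[X], (∀ z : ℂ, (h.map (algebraMap ℚ ℂ)).IsRoot z →
      ‖z‖ ^ 2 = (Ideal.absNorm v.asIdeal : ℝ) ^ w) ∧
    ∀ (ℓ : ℕ) [Fact ℓ.Prime], (ℓ : 𝓞 K) ∉ v.asIdeal → ∀ Q, LiesAbove v Q →
      ∀ g, FrobeniusAt Q (Ideal.absNorm v.asIdeal) g →
        (mat (V ℓ) g⁻¹).charpoly = h.map (algebraMap ℚ ℚ_[ℓ])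

/-- For `ℓ` not below `v` the inertia groups at `v` act trivially on `V_ℓ`. -/
def UnramifiedAt [NumberField K] {n : ℕ}
    (V : ∀ (ℓ : ℕ) [Fact ℓ.Prime], AbsGal K →* GL (Fin n) ℚ_[ℓ]) (v : HeightOneSpectrum (𝓞 K)) :
    Prop :=
  ∀ (ℓ : ℕ) [Fact ℓ.Prime], (ℓ : 𝓞 K) ∉ v.asIdeal → ∀ Q, LiesAbove v Q →
    ∀ g, InInertia Q g → V ℓ g = 1

/-- the entries of the matrices of `g` under `ρ` and `η` -/
noncomputable def entries {F : Type} [Field F] {n m : ℕ} (ρ : AbsGal K →* GL (Fin n) F)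
    (η : AbsGal K →* GL (Fin m) F) (g : AbsGal K) : (Fin n × Fin n) ⊕ (Fin m × Fin m) → F :=
  Sum.elim (fun ij => mat ρ g ij.1 ij.2) (fun ij => mat η g ij.1 ij.2)

/-- The Zariski closure of the image of `G₀` in `GL_n × GL_m` is connected: for every open subgroup
`H` of the Galois group the image of the subgroup `H ∩ G₀`, which has finite index in `G₀`, is dense
in the Zariski closure of the image of `G₀`, that is, a polynomial in the entries of the matrices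
which vanishes on `H ∩ G₀` vanishes on `G₀`. -/
def ConnectedOn {F : Type} [Field F] {n m : ℕ} (ρ : AbsGal K →* GL (Fin n) F)
    (η : AbsGal K →* GL (Fin m) F) (G₀ : Subgroup (AbsGal K)) : Prop :=
  ∀ H : Subgroup (AbsGal K), IsOpen (H : Set (AbsGal K)) →
    ∀ f : MvPolynomial ((Fin n × Fin n) ⊕ (Fin m × Fin m)) F,
      (∀ h ∈ H, h ∈ G₀ → MvPolynomial.eval (entries ρ η h) f = 0) →
        ∀ g ∈ G₀, MvPolynomial.eval (entries ρ η g) f = 0

end

/-- The part of weight `w` of the matrix `A`, for a residue field with `q` elements: the sum of the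
generalised eigenspaces for the eigenvalues `z` with `|z| ^ 2 = q ^ w`, that is, the vectors which
are annihilated by a nonzero polynomial in `A` all of whose roots `z` satisfy `|z| ^ 2 = q ^ w`. -/
def weightPart {n : ℕ} (A : Matrix (Fin n) (Fin n) ℂ) (q : ℕ) (w : ℤ) : Set (Fin n → ℂ) :=
  {x | ∃ p : ℂ[X], p ≠ 0 ∧ (∀ z, p.IsRoot z → ‖z‖ ^ 2 = (q : ℝ) ^ w) ∧ aeval A p *ᵥ x = 0}

/-- The weight-monodromy property of the `ℓ`-adic representation `ρ` at `Q`, with the weight `w`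
(`q` is the number of elements of the residue field of the place below `Q`). The monodromy operator
`N` is the logarithm of the action of an element of the inertia group at `Q` such that an open
subgroup of the inertia group acts through the exponentials of multiples of `N`. For every geometric
Frobenius element `g` at `Q` and every embedding `e` of `ℚ_ℓ` in `ℂ`, the eigenvalues of `g` have
integral weights, and `N ^ j` is a bijection from the part of weight `w + j` to the part of weight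
`w - j`, for every `j ≥ 0`. -/
def WeightMonodromy {K : Type} [Field K] {ℓ : ℕ} [Fact ℓ.Prime] {n : ℕ}
    (ρ : AbsGal K →* GL (Fin n) ℚ_[ℓ]) (w : ℤ) (q : ℕ) (Q : Ideal (𝓞 (AlgebraicClosure K))) :
    Prop :=
  ∃ (N : Matrix (Fin n) (Fin n) ℚ_[ℓ]) (H : Subgroup (AbsGal K)),
    IsNilpotent N ∧ IsOpen (H : Set (AbsGal K)) ∧
    (∃ g ∈ H, InInertia Q g ∧ mat ρ g = IsNilpotent.exp N) ∧
    (∀ g ∈ H, InInertia Q g → ∃ t : ℚ_[ℓ], mat ρ g = IsNilpotent.exp (t • N)) ∧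
    ∀ g, FrobeniusAt Q q g⁻¹ → ∀ e : ℚ_[ℓ] →+* ℂ,
      (∀ z ∈ spectrum ℂ ((mat ρ g).map e), ∃ j : ℤ, ‖z‖ ^ 2 = (q : ℝ) ^ (w + j)) ∧
      ∀ j : ℕ, Set.BijOn (fun x => (N.map e) ^ j *ᵥ x)
        (weightPart ((mat ρ g).map e) q (w + j)) (weightPart ((mat ρ g).map e) q (w - j))

section bridge

open Pool.Agent.J6H90.WT

theorem ws_eq {n : ℕ} (A : Matrix (Fin n) (Fin n) ℂ) (q : ℕ) (w : ℤ) :
    weightPart A q w = (ws A (wt q w) : Set (Fin n → ℂ)) := rfl

theorem wm_of_bij {n : ℕ} {A N : Matrix (Fin n) (Fin n) ℂ} {q : ℕ} {w : ℤ}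
    (h1 : ∀ z ∈ spectrum ℂ A, ∃ j : ℤ, ‖z‖ ^ 2 = (q : ℝ) ^ (w + j))
    (h2 : ∀ j : ℕ, Set.BijOn (fun x => N ^ j *ᵥ x) (weightPart A q (w + j))
      (weightPart A q (w - j))) : WM A N q w := by
  refine ⟨h1, fun j _ => ⟨fun x hx hx0 => ?_, fun y hy => ?_⟩⟩
  · have h0 : (0 : Fin n → ℂ) ∈ weightPart A q (w + j) := (ws A (wt q (w + j))).zero_mem
    refine (h2 j).injOn hx h0 ?_
    rw [hx0, Matrix.mulVec_zero]
  · obtain ⟨x, hx, hxy⟩ := (h2 j).surjOn hy
    exact ⟨x, hx, hxy⟩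

theorem bij_of_wm {n : ℕ} {A N : Matrix (Fin n) (Fin n) ℂ} {q : ℕ} (hq : q ≠ 0) {w : ℤ}
    (hr : N * A = (q : ℂ) • (A * N)) (h : WM A N q w) (j : ℕ) :
    Set.BijOn (fun x => N ^ j *ᵥ x) (weightPart A q (w + j)) (weightPart A q (w - j)) := by
  have hq0 : (q : ℝ) ≠ 0 := Nat.cast_ne_zero.2 hq
  have hstep : ∀ (k : ℤ) (x : Fin n → ℂ), x ∈ ws A (wt q k) → N *ᵥ x ∈ ws A (wt q (k - 2)) := by
    intro k x hx
    have h1 := ws3 n A N q (Nat.cast_ne_zero.2 hq) hr (wt q k) x hx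
    have h2 : {z : ℂ | (q : ℂ) * z ∈ wt q k} = wt q (k - 2) := by
      ext z
      change ‖(q : ℂ) * z‖ ^ 2 = (q : ℝ) ^ k ↔ ‖z‖ ^ 2 = (q : ℝ) ^ (k - 2)
      rw [norm_mul, Complex.norm_natCast, mul_pow, zpow_sub₀ hq0, eq_div_iff (by positivity)]
      rw [mul_comm]
      rfl
    rwa [h2] at h1
  have hpow : ∀ (i : ℕ) (k : ℤ) (x : Fin n → ℂ), x ∈ ws A (wt q k) →
      N ^ i *ᵥ x ∈ ws A (wt q (k - 2 * i)) := by
    intro i
    induction i with
    | zero =>
      intro k x hx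
      rw [pow_zero, Matrix.one_mulVec]
      simpa using hx
    | succ i ih =>
      intro k x hx
      have h1 := hstep _ _ (ih k x hx)
      rw [Matrix.mulVec_mulVec, ← pow_succ'] at h1
      have h2 : k - 2 * (i : ℤ) - 2 = k - 2 * ((i + 1 : ℕ) : ℤ) := by
        push_cast
        ring
      rwa [h2] at h1
  refine ⟨fun x hx => ?_, ?_, ?_⟩
  · have h1 := hpow j (w + j) x hx
    have h2 : w + (j : ℤ) - 2 * j = w - j := by ring
    rw [h2] at h1
    exact h1
  · intro x hx y hy hxy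
    rcases Nat.eq_zero_or_pos j with rfl | hj
    · change N ^ 0 *ᵥ x = N ^ 0 *ᵥ y at hxy
      rwa [pow_zero, Matrix.one_mulVec, Matrix.one_mulVec] at hxy
    · have h1 := (h.2 j hj).1 (x - y) (Submodule.sub_mem _ hx hy) (by
        rw [Matrix.mulVec_sub]
        exact sub_eq_zero.2 hxy)
      exact sub_eq_zero.1 h1
  · intro y hy
    rcases Nat.eq_zero_or_pos j with rfl | hj
    · refine ⟨y, ?_, ?_⟩
      · simpa using hy
      · change N ^ 0 *ᵥ y = y
        rw [pow_zero, Matrix.one_mulVec]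
    · obtain ⟨x, hx, hxy⟩ := (h.2 j hj).2 y hy
      exact ⟨x, hx, hxy⟩

theorem mono_of {K : Type} [Field K] [NumberField K] {ℓ : ℕ} [Fact ℓ.Prime] {n : ℕ}
    {ρ : AbsGal K →* GL (Fin n) ℚ_[ℓ]} {w : ℤ} {q : ℕ} {Q : Ideal (𝓞 (AlgebraicClosure K))}
    (h : WeightMonodromy ρ w q Q) : MonoWM (Pool.Agent.R401.Tr9.mh ρ) w q Q := by
  obtain ⟨N, H, hN, hH, h1, h2, h3⟩ := h
  refine ⟨N, H, hN, hH, h1, h2, fun g hg e => ?_⟩
  have h4 := h3 g⁻¹ (by rw [inv_inv]; exact hg) e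
  exact wm_of_bij h4.1 h4.2

end bridge

/-- **Sharp thresholds for the transfer of weight-monodromy and of local Euler factors.** -/
theorem result {K : Type} [Field K] [NumberField K] {n m : ℕ}
    (V : ∀ (ℓ : ℕ) [Fact ℓ.Prime], AbsGal K →* GL (Fin n) ℚ_[ℓ])
    (hV : ∀ (ℓ : ℕ) [Fact ℓ.Prime], Continuous (V ℓ))
    (W : ∀ (ℓ : ℕ) [Fact ℓ.Prime], AbsGal K →* GL (Fin m) ℚ_[ℓ])
    (hW : ∀ (ℓ : ℕ) [Fact ℓ.Prime], Continuous (W ℓ)) (w : ℤ)
    -- the exceptional places, and the differences of the traces at the other places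
    (B : Set (HeightOneSpectrum (𝓞 K))) (hB : B.Finite)
    (hVp : ∀ v, v ∉ B → PureAt V w v) (hWp : ∀ v, v ∉ B → PureAt W w v)
    (a : HeightOneSpectrum (𝓞 K) → ℚ)
    (htr : ∀ (ℓ : ℕ) [Fact ℓ.Prime], ∀ v, v ∉ B → (ℓ : 𝓞 K) ∉ v.asIdeal → ∀ Q, LiesAbove v Q →
      ∀ g, FrobeniusAt Q (Ideal.absNorm v.asIdeal) g →
        (mat (V ℓ) g⁻¹).trace - (mat (W ℓ) g⁻¹).trace = (a v : ℚ_[ℓ]))
    -- the differences are divisible, up to a bounded denominator, for enough places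
    (d : ℕ) (hd : 0 < d) (θ : ℝ)
    (hdiv : ∃ᶠ x : ℕ in atTop, ({v : HeightOneSpectrum (𝓞 K) | Ideal.absNorm v.asIdeal ≤ x ∧
      ¬ ∃ c : ℤ, (d : ℚ) * a v ^ 2 = (Ideal.absNorm v.asIdeal : ℚ) ^ w * c}.ncard : ℝ) ≤
        θ * Nat.primeCounting x)
    (hθ : θ * ((n : ℝ) ^ 2 + (m : ℝ) ^ 2) < 2 ∨
      ∃ (ℓ₀ : ℕ) (_ : Fact ℓ₀.Prime) (G₀ : Subgroup (AbsGal K)), G₀.Normal ∧
        IsOpen (G₀ : Set (AbsGal K)) ∧ ConnectedOn (V ℓ₀) (W ℓ₀) G₀ ∧ θ * G₀.index < 1) :
    -- odd weights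
    (¬ (2 : ℤ) ∣ w → ∀ (ℓ : ℕ) [Fact ℓ.Prime] (g : AbsGal K),
      (mat (V ℓ) g).trace = (mat (W ℓ) g).trace) ∧
    (∃ U : Subgroup (AbsGal K), U.Normal ∧ IsOpen (U : Set (AbsGal K)) ∧
      -- even weights
      (∀ u : ℤ, w = 2 * u → ∃ φ : AbsGal K → ℚ, (∀ x ∈ U, ∀ y, φ (x * y) = φ y) ∧
        ∀ v, v ∉ B → ∀ Q, LiesAbove v Q → ∀ g, FrobeniusAt Q (Ideal.absNorm v.asIdeal) g →
          a v = (Ideal.absNorm v.asIdeal : ℚ) ^ u * φ g) ∧
      -- the places of good reduction of `W`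
      ∀ v, UnramifiedAt W v → PureAt W w v → ∀ Q, LiesAbove v Q →
        (∀ (ℓ : ℕ) [Fact ℓ.Prime], (ℓ : 𝓞 K) ∉ v.asIdeal → ∀ g ∈ U, InInertia Q g → V ℓ g = 1) ∧
        ∀ g, FrobeniusAt Q (Ideal.absNorm v.asIdeal) g⁻¹ →
          ∃ P : ℚ[X], LocalFactorIs V v Q g P ∧
            (0 ≤ w → (∃ R : ℤ[X], ∀ (ℓ : ℕ) [Fact ℓ.Prime], (ℓ : 𝓞 K) ∉ v.asIdeal →
                (mat (W ℓ) g).charpoly = R.map (Int.castRingHom ℚ_[ℓ])) →
              ∃ R : ℤ[X], P = R.map (Int.castRingHom ℚ))) ∧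
    -- all places
    ((∀ (ℓ : ℕ) [Fact ℓ.Prime], Semisimple (W ℓ)) → ∀ v Q, LiesAbove v Q →
      (∀ (ℓ : ℕ) [Fact ℓ.Prime], (ℓ : 𝓞 K) ∉ v.asIdeal →
        WeightMonodromy (W ℓ) w (Ideal.absNorm v.asIdeal) Q →
          WeightMonodromy (V ℓ) w (Ideal.absNorm v.asIdeal) Q) ∧
      ((∀ (ℓ : ℕ) [Fact ℓ.Prime], (ℓ : 𝓞 K) ∉ v.asIdeal →
          WeightMonodromy (W ℓ) w (Ideal.absNorm v.asIdeal) Q) →
        ∀ g, FrobeniusAt Q (Ideal.absNorm v.asIdeal) g⁻¹ →
          ∀ P : ℚ[X], LocalFactorIs W v Q g P → ∃ P' : ℚ[X], LocalFactorIs V v Q g P' ∧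
            (0 ≤ w → (∃ R : ℤ[X], P = R.map (Int.castRingHom ℚ)) →
              ∃ R : ℤ[X], P' = R.map (Int.castRingHom ℚ)))) := by
  have hcast : ∀ (L : Type) [Field L] [CharZero L] (f : ℚ →+* L), Rat.castHom L = f :=
    fun L _ _ f => Subsingleton.elim _ _
  have hpur : ∀ v, v ∉ B → ∃ h h' : Polynomial ℚ,
      (∀ z : ℂ, (h.map (Rat.castHom ℂ)).IsRoot z → ‖z‖ ^ 2 = (Ideal.absNorm v.asIdeal : ℝ) ^ w) ∧
      (∀ z : ℂ, (h'.map (Rat.castHom ℂ)).IsRoot z → ‖z‖ ^ 2 = (Ideal.absNorm v.asIdeal : ℝ) ^ w) ∧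
      ∀ (ℓ : ℕ) [Fact ℓ.Prime], (ℓ : 𝓞 K) ∉ v.asIdeal → ∀ g, Pool.Agent.W401.Cheb.IsFrob v g →
        (Pool.Agent.R401.Img.mt (V ℓ) g⁻¹).charpoly = h.map (Rat.castHom ℚ_[ℓ]) ∧
        (Pool.Agent.R401.Img.mt (W ℓ) g⁻¹).charpoly = h'.map (Rat.castHom ℚ_[ℓ]) := by
    intro v hv
    obtain ⟨h, h1, h2⟩ := hVp v hv
    obtain ⟨h', h1', h2'⟩ := hWp v hv
    refine ⟨h, h', ?_, ?_, ?_⟩
    · rw [hcast ℂ (algebraMap ℚ ℂ)]
      exact h1
    · rw [hcast ℂ (algebraMap ℚ ℂ)]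
      exact h1'
    · rintro ℓ _ hℓ g ⟨Q, hQ, hQv, hg⟩
      rw [hcast ℚ_[ℓ] (algebraMap ℚ ℚ_[ℓ])]
      exact ⟨h2 ℓ hℓ Q ⟨hQ, hQv⟩ g hg, h2' ℓ hℓ Q ⟨hQ, hQv⟩ g hg⟩
  have htr' : ∀ (ℓ : ℕ) [Fact ℓ.Prime], ∀ v, v ∉ B → (ℓ : 𝓞 K) ∉ v.asIdeal → ∀ g,
      Pool.Agent.W401.Cheb.IsFrob v g → (Pool.Agent.R401.Img.mt (V ℓ) g⁻¹).trace -
        (Pool.Agent.R401.Img.mt (W ℓ) g⁻¹).trace = (a v : ℚ_[ℓ]) := by
    rintro ℓ _ v hv hℓ g ⟨Q, hQ, hQv, hg⟩
    exact htr ℓ v hv hℓ Q ⟨hQ, hQv⟩ g hg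
  have hdiv' : ∃ᶠ N : ℕ in atTop, Pool.Agent.W401.Cheb.dens
      (fun v : HeightOneSpectrum (𝓞 K) =>
        ¬ ∃ c : ℤ, (d : ℚ) * a v ^ 2 = (Ideal.absNorm v.asIdeal : ℚ) ^ w * c) N ≤ θ := by
    refine (hdiv.and_eventually (Nat.tendsto_primeCounting.eventually_gt_atTop 0)).mono ?_
    rintro N ⟨h1, h3⟩
    have h4 : (0 : ℝ) < (Nat.primeCounting N : ℝ) := by exact_mod_cast h3
    unfold Pool.Agent.W401.Cheb.dens
    rw [div_le_iff₀ h4]
    exact h1
  have hC := Pool.Agent.J6H29.ST.bound_a Pool.Agent.J6H68.ST.Pur.main V W B a w htr' hpur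
  obtain ⟨u, φ, U, hw, hUn, hUo, hU, hφ⟩ : ∃ (u : ℤ) (φ : AbsGal K → ℚ)
      (U : Subgroup (AbsGal K)), (w = 2 * u ∨ ∀ y, φ y = 0) ∧ U.Normal ∧
      IsOpen (U : Set (AbsGal K)) ∧ (∀ x ∈ U, ∀ y, φ (x * y) = φ y) ∧
      ∀ (ℓ : ℕ) [Fact ℓ.Prime] (y : AbsGal K), Pool.Agent.R401.Sup3.cyc K ℓ ℚ_[ℓ] y ^ u *
        ((Pool.Agent.R401.Img.mt (V ℓ) y).trace - (Pool.Agent.R401.Img.mt (W ℓ) y).trace) =
          (φ y : ℚ_[ℓ]) := by
    rcases hθ with hθ | ⟨ℓ₀, _, G₀, hG₀n, hG₀o, hconn, hθ⟩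
    · exact Pool.Agent.J6H29.ST.family Pool.Agent.J6H19.ST.main Pool.Agent.J6H68.ST.Pur.main
        Pool.Agent.J6H73.STG.main Pool.Agent.J6H95.ST.main V hV W hW B hB a w htr' hpur _ hC θ hθ
        hd hdiv'
    · exact Pool.Agent.J6H29.ST.family3 Pool.Agent.J6H29.ST.meas3
        Pool.Agent.J6H29.ST.zarC Pool.Agent.J6H82.ST.main
        Pool.Agent.J6H73.STG.main V hV W hW B hB a w htr' hpur _ hC θ hd hdiv' ℓ₀ G₀ hG₀n hG₀o hθ
        hconn
  have hq : ∀ v : HeightOneSpectrum (𝓞 K), 2 ≤ Ideal.absNorm v.asIdeal := by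
    intro v
    have h0 : Ideal.absNorm v.asIdeal ≠ 0 := fun h0 => v.ne_bot (Ideal.absNorm_eq_zero_iff.1 h0)
    have h1 : Ideal.absNorm v.asIdeal ≠ 1 := fun h1 =>
      v.isPrime.ne_top (Ideal.absNorm_eq_one_iff.1 h1)
    omega
  have hQℓ' : ∀ {v : HeightOneSpectrum (𝓞 K)} {Q : Ideal (𝓞 (AlgebraicClosure K))},
      LiesAbove v Q → ∀ ℓ : ℕ, (ℓ : 𝓞 (AlgebraicClosure K)) ∈ Q ↔ (ℓ : 𝓞 K) ∈ v.asIdeal := by
    intro v Q hQ ℓ
    rw [← hQ.2, Ideal.mem_comap, map_natCast]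
  refine ⟨?_, ⟨U, hUn, hUo, ?_, ?_⟩, ?_⟩
  · -- odd weights
    intro hw2 ℓ _ g
    have hφ0 : φ g = 0 := by
      rcases hw with hw | hw
      · exact absurd ⟨u, hw⟩ hw2
      · exact hw g
    have h1 := hφ ℓ g
    rw [hφ0, Rat.cast_zero] at h1
    have h2 : Pool.Agent.R401.Sup3.cyc K ℓ ℚ_[ℓ] g ^ u ≠ 0 :=
      zpow_ne_zero _ (Pool.Agent.R401.Sup.c_ne _ g)
    exact sub_eq_zero.1 ((mul_eq_zero.1 h1).resolve_left h2)
  · -- even weights
    intro u' hu'
    refine ⟨fun g => φ g⁻¹, fun x hx y => ?_, ?_⟩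
    · have h1 : (x * y)⁻¹ = (y⁻¹ * x⁻¹ * y⁻¹⁻¹) * y⁻¹ := by group
      change φ (x * y)⁻¹ = φ y⁻¹
      rw [h1, hU _ (hUn.conj_mem _ (U.inv_mem hx) y⁻¹)]
    · intro v hv Q hQ g hg
      obtain ⟨ℓ, hℓ, hℓv⟩ := Pool.Agent.J6H29.ST.exists_prime v
      have : Fact ℓ.Prime := ⟨hℓ⟩
      have h1 := hφ ℓ g⁻¹
      have h2 := htr ℓ v hv hℓv Q hQ g hg
      have h3 : Pool.Agent.R401.Sup3.cyc K ℓ ℚ_[ℓ] g = Ideal.absNorm v.asIdeal :=
        Pool.Agent.R401.Sup3.cyc_frob ℓ _ hℓv ⟨Q, hQ.1, hQ.2, hg⟩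
      have hN0 : (Ideal.absNorm v.asIdeal : ℚ) ≠ 0 := by
        have := hq v
        exact_mod_cast (by omega : Ideal.absNorm v.asIdeal ≠ 0)
      have h2' : (Pool.Agent.R401.Img.mt (V ℓ) g⁻¹).trace -
          (Pool.Agent.R401.Img.mt (W ℓ) g⁻¹).trace = (a v : ℚ_[ℓ]) := h2
      rw [h2', Pool.Agent.R401.Sup.c_inv, h3] at h1
      have h4 : ((Ideal.absNorm v.asIdeal : ℚ)⁻¹ ^ u) * a v = φ g⁻¹ := by
        have h5 : ((((Ideal.absNorm v.asIdeal : ℚ)⁻¹ ^ u) * a v : ℚ) : ℚ_[ℓ]) =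
            (φ g⁻¹ : ℚ_[ℓ]) := by
          push_cast
          exact h1
        exact Rat.cast_injective h5
      rcases hw with hw | hw
      · have huu : u = u' := by omega
        subst huu
        change a v = (Ideal.absNorm v.asIdeal : ℚ) ^ u * φ g⁻¹
        rw [← h4, _root_.inv_zpow, ← mul_assoc, mul_inv_cancel₀ (zpow_ne_zero _ hN0), one_mul]
      · change a v = (Ideal.absNorm v.asIdeal : ℚ) ^ u' * φ g⁻¹
        rw [hw] at h4
        rw [hw, mul_zero]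
        exact (mul_eq_zero.1 h4).resolve_left (zpow_ne_zero _ (inv_ne_zero hN0))
  · -- places of good reduction
    rintro v hur ⟨h, hpure, hchar⟩ Q hQ
    have hQℓ := hQℓ' hQ
    have hI : ∀ (ℓ : ℕ) [Fact ℓ.Prime] (x : Fin n → ℚ_[ℓ]), x ∈ invariants (V ℓ) Q ↔
        ∀ τ, Pool.Agent.W569.FM.InInertia Q τ → Pool.Agent.R401.Img.mt (V ℓ) τ *ᵥ x = x :=
      fun ℓ _ x => Iff.rfl
    have key : ∀ g : AbsGal K, FrobeniusAt Q (Ideal.absNorm v.asIdeal) g⁻¹ → _ := fun g hg =>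
      Pool.Agent.R401.Tr10.loc V hV W u φ U hUn hUo hU hφ hw hQ.1 (hq v) hg
        (fun ℓ _ hℓ τ hτ => by
          have h1 := hur ℓ (fun h' => hℓ ((hQℓ ℓ).2 h')) Q hQ τ hτ
          unfold Pool.Agent.R401.Img.mt
          rw [h1]
          rfl) h
        (fun ℓ _ hℓ => by
          rw [hcast]
          exact hchar ℓ (fun h' => hℓ ((hQℓ ℓ).2 h')) Q hQ _ hg)
        (fun z hz => by
          rw [hcast ℂ (algebraMap ℚ ℂ)] at hz
          exact hpure z hz)
        (fun ℓ _ => invariants (V ℓ) Q) hI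
    constructor
    · intro ℓ _ hℓ g hgU hg
      have hQm := hQ.1
      obtain ⟨σ, hσ⟩ := Pool.Agent.W352.ChAbs.exists_frob v Q hQ.2
      have h1 := (key σ⁻¹ (by rwa [inv_inv])).1 ℓ (fun h' => hℓ ((hQℓ ℓ).1 h')) g hgU hg
      exact Units.ext h1
    · intro g hg
      obtain ⟨P, hP⟩ := (key g hg).2
      refine ⟨P, ?_, ?_⟩
      · rw [inv_inv] at hP
        intro ℓ _ hℓ f
        have hℓQ : (ℓ : 𝓞 (AlgebraicClosure K)) ∉ Q := fun h' => hℓ ((hQℓ ℓ).1 h')
        constructor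
        · rintro ⟨m, b, A, hA, rfl⟩
          rw [← hcast ℚ_[ℓ] (algebraMap ℚ ℚ_[ℓ])]
          exact hP ℓ hℓQ m b A hA
        · rintro rfl
          obtain ⟨m, b, A, hA⟩ := Pool.Agent.R401.Tr6.exists_basis (V ℓ) (hq v) hg (hI ℓ)
          rw [inv_inv] at hA
          refine ⟨m, b, A, hA, ?_⟩
          rw [← hcast ℚ_[ℓ] (algebraMap ℚ ℚ_[ℓ])]
          exact (hP ℓ hℓQ m b A hA).symm
      · rintro hw0 ⟨R, hR⟩
        exact Pool.Agent.J6H29.ST.int_good Pool.Agent.J6H74.ST.Int.main V W u φ U hUn hUo hU hφ hw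
          hw0 hQ.1 (hq v) hg R (fun ℓ _ hℓ => by
            have h1 := hR ℓ (fun h' => hℓ ((hQℓ ℓ).2 h'))
            rw [inv_inv]
            exact h1) (fun ℓ _ => invariants (V ℓ) Q) hI P hP
  -- all places
  intro hss v Q hQ
  open Pool.Agent.J6H90.WT in
  have hcyc : S_CYC := cyc cycfin log
  have hrel : S_REL := rel log
  have hstab : S_STAB := stab ws3 ws5
  have hwmt : S_WMT := wmt ws1 ws2 ws3 ws4 ws5 ws6 dk di
  have hkt : S_KT := kt ws1 ws2 ws3 ws4 ws5 ws6 trk hstab hwmt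
  have hq : 2 ≤ Ideal.absNorm v.asIdeal := hq v
  have hq0 : Ideal.absNorm v.asIdeal ≠ 0 := by omega
  have hQℓ : ∀ ℓ : ℕ, (ℓ : 𝓞 (AlgebraicClosure K)) ∈ Q ↔ (ℓ : 𝓞 K) ∈ v.asIdeal := by
    intro ℓ
    rw [← hQ.2, Ideal.mem_comap, map_natCast]
  have hQm := hQ.1
  constructor
  · intro ℓ _ hℓ hWM
    have hℓQ : (ℓ : 𝓞 (AlgebraicClosure K)) ∉ Q := fun h' => hℓ ((hQℓ ℓ).1 h')
    obtain ⟨σ, hσ⟩ := Pool.Agent.W352.ChAbs.exists_frob v Q hQ.2
    obtain ⟨N, H, hN, hH, h1, h2, h3⟩ := wm_fam log hcyc hrel bc hwmt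
      (V := Pool.Agent.R401.Tr9.mh (V ℓ)) (Pool.Agent.R401.Sup.continuous_mt (V ℓ) (hV ℓ))
      (W := Pool.Agent.R401.Tr9.mh (W ℓ)) (Pool.Agent.R401.Sup.continuous_mt (W ℓ) (hW ℓ))
      hUn hUo hU (hφ ℓ) hQ.1 hq hσ hℓQ hw (mono_of hWM) (nondeg (W ℓ) (hss ℓ))
    refine ⟨N, H, hN, hH, h1, h2, fun g hg e => ?_⟩
    obtain ⟨h4, h5⟩ := h3 g⁻¹ hg
    have h6 := h5 e
    rw [inv_inv] at h4 h6
    refine ⟨h6.1, fun j => bij_of_wm hq0 ?_ h6 j⟩
    rw [← mul_map, h4, smul_map, mul_map, map_natCast]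
  · intro hWM g hg P hP
    obtain ⟨P', hP', hint⟩ := loc log expk hcyc hrel bc hkt V hV W hW hss u φ U hUn hUo
      hU hφ hw hQ.1 hq hg
      (fun ℓ _ hℓ => mono_of (hWM ℓ fun h' => hℓ ((hQℓ ℓ).2 h')))
      (fun ℓ _ => invariants (V ℓ) Q) (fun ℓ _ x => Iff.rfl)
      (fun ℓ _ => invariants (W ℓ) Q) (fun ℓ _ x => Iff.rfl) P (by
        intro ℓ _ hℓ r b A hA
        rw [inv_inv] at hA
        rw [hcast ℚ_[ℓ] (algebraMap ℚ ℚ_[ℓ])]
        exact (hP ℓ (fun h' => hℓ ((hQℓ ℓ).2 h')) _).1 ⟨r, b, A, hA, rfl⟩)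
    rw [inv_inv] at hP'
    refine ⟨P', ?_, hint⟩
    intro ℓ _ hℓ f
    have hℓQ : (ℓ : 𝓞 (AlgebraicClosure K)) ∉ Q := fun h' => hℓ ((hQℓ ℓ).1 h')
    constructor
    · rintro ⟨m, b, A, hA, rfl⟩
      rw [← hcast ℚ_[ℓ] (algebraMap ℚ ℚ_[ℓ])]
      exact hP' ℓ hℓQ m b A hA
    · rintro rfl
      obtain ⟨m, b, A, hA⟩ := Pool.Agent.R401.Tr6.exists_basis (V ℓ) hq hg
        (fun x => (Iff.rfl : x ∈ invariants (V ℓ) Q ↔ _))
      rw [inv_inv] at hA
      refine ⟨m, b, A, hA, ?_⟩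
      rw [← hcast ℚ_[ℓ] (algebraMap ℚ ℚ_[ℓ])]
      exact (hP' ℓ hℓQ m b A hA).symm

end Pool.Agent.Results.MP_898f40_nt.SharpThreshold
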