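import Pool.Agent.J6H90.WT.Sc
import Pool.Agent.J6H90.WT.PWS
import Pool.Agent.J6H90.WT.PDUAL
import Pool.Agent.J6H90.WT.PBC
import Pool.Agent.J6H90.WT.PTRK
import Pool.Agent.J6H90.WT.PLOG
import Pool.Agent.J6H90.WT.PWMT
import Pool.Agent.J6H90.WT.PKT
import Pool.Agent.J6H90.WT.PREL
import Pool.Agent.J6H90.WT.PCYCFIN
import Pool.Agent.J6H90.WT.PCYC

/-!
# Transfer of strict compatibility

Let `K` be a number field (for example `ℚ`) and let `V_ℓ` and `W_ℓ`, for all primes `ℓ`, be the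
`ℓ`-adic realisations, in degrees of the same weight `w`, of two motives over `K`. At the places
`v` outside a finite set the difference `a_v` of the traces of the geometric Frobenius elements on
`V_ℓ` and `W_ℓ` is a rational number which does not depend on `ℓ`, and `a_v ^ 2 ≤ C N(v) ^ w`
(Deligne; Katz and Messing). The `W_ℓ` are assumed to be semisimple, but not the `V_ℓ`. No
assumption is made on the action of the inertia groups on `V_ℓ`. Suppose that `d a_v ^ 2` is an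
integral multiple of `N(v) ^ w` for `v` in a set of upper density larger than
`1 - 1 / (n ^ 2 + m ^ 2)`, where `n` and `m` are the ranks.

Then there are an integer `u` and a rational function `φ` on the absolute Galois group which is
constant on the cosets of an open normal subgroup (`w = 2 u` or `φ = 0`), with the following
property. Let `v` be *any* finite place and `ℓ` a prime not below `v` such that `W_ℓ` satisfies the
weight-monodromy conjecture at `v`. Then `V_ℓ` satisfies the weight-monodromy conjecture at `v`, and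

  `tr (g | ker N_V ^ a) = tr (g | ker N_W ^ a) + N(v) ^ (u k) φ(g)`

for every `a ≥ 1` and every element `g` of the decomposition group at `v` which acts on the residue
field as the `k`-th power of the geometric Frobenius element, `k ≥ 0`, where `N_V` and `N_W` are the
monodromy operators of `V_ℓ` and `W_ℓ`. So the parts of the Weil-Deligne representations of `V_ℓ` and
`W_ℓ` on which `N` is not trivial have the same semisimplifications, and the other parts differ by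
the virtual Artin representation `φ` twisted by `ℚ_ℓ(-u)`. These traces determine the
Frobenius-semisimple Weil-Deligne representations. In particular: if `W` is strictly compatible and
pure at `v` (the weight-monodromy conjecture holds, and all these traces are rational and
independent of `ℓ`), then `V` is strictly compatible and pure at `v`.

Proof. The function `φ` comes from the start file behind `EulerFactorTransfer`. The Jordan
decomposition with respect to the weights gives projectors in the group algebra, of components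
different from the weight `w` in all but the last coordinate, on which the traces agree; the trace
form of `W_ℓ` is nondegenerate, which gives the bijectivity of the powers of `N_V`. By the
weight-monodromy property the trace on `ker N ^ a` is the trace on the part of weight
`≤ w + a - 1` minus `q ^ (a k)` times the trace on the part of weight `≤ w - a - 1`.
-/

set_option autoImplicit false

namespace Pool.Agent.Results.MP_898f40_nt.StrictCompatibility

open NumberField IsDedekindDomain Filter Matrix Polynomial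

/-- the absolute Galois group of the field `K`, with the Krull topology -/
abbrev AbsGal (K : Type) [Field K] : Type := Gal(AlgebraicClosure K/K)

section
variable {K : Type} [Field K]

/-- `g` belongs to the inertia group at the ideal `Q` of the ring of all algebraic integers. -/
def InInertia (Q : Ideal (𝓞 (AlgebraicClosure K))) (g : AbsGal K) : Prop :=
  ∀ x : 𝓞 (AlgebraicClosure K), g • x - x ∈ Q

/-- `g` is an arithmetic Frobenius element at `Q`, for a residue field with `q` elements of the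
place below `Q`. -/
def FrobeniusAt (Q : Ideal (𝓞 (AlgebraicClosure K))) (q : ℕ) (g : AbsGal K) : Prop :=
  ∀ x : 𝓞 (AlgebraicClosure K), g • x - x ^ q ∈ Q

/-- `Q` is a maximal ideal of the ring of all algebraic integers which lies above the finite
place `v` of `K`. -/
def LiesAbove [NumberField K] (v : HeightOneSpectrum (𝓞 K))
    (Q : Ideal (𝓞 (AlgebraicClosure K))) : Prop :=
  Q.IsMaximal ∧ Q.comap (algebraMap (𝓞 K) (𝓞 (AlgebraicClosure K))) = v.asIdeal

/-- the matrix of `g` -/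
noncomputable def mat {F : Type} [Field F] {n : ℕ} (ρ : AbsGal K →* GL (Fin n) F) (g : AbsGal K) :
    Matrix (Fin n) (Fin n) F :=
  (ρ g : GL (Fin n) F)

/-- The representation `ρ` is semisimple: every stable subspace has a stable complement. -/
def Semisimple {F : Type} [Field F] {n : ℕ} (ρ : AbsGal K →* GL (Fin n) F) : Prop :=
  ∀ S : Submodule F (Fin n → F), (∀ g, ∀ x ∈ S, mat ρ g *ᵥ x ∈ S) →
    ∃ T : Submodule F (Fin n → F), (∀ g, ∀ x ∈ T, mat ρ g *ᵥ x ∈ T) ∧ IsCompl S T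

end

/-- The part of weight `w` of the matrix `A`, for a residue field with `q` elements: the sum of the
generalised eigenspaces for the eigenvalues `z` with `|z| ^ 2 = q ^ w`, that is, the vectors which
are annihilated by a nonzero polynomial in `A` all of whose roots `z` satisfy `|z| ^ 2 = q ^ w`. -/
def weightPart {n : ℕ} (A : Matrix (Fin n) (Fin n) ℂ) (q : ℕ) (w : ℤ) : Set (Fin n → ℂ) :=
  {x | ∃ p : ℂ[X], p ≠ 0 ∧ (∀ z, p.IsRoot z → ‖z‖ ^ 2 = (q : ℝ) ^ w) ∧ aeval A p *ᵥ x = 0}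

/-- `N` is a monodromy operator of the `ℓ`-adic representation `ρ` at `Q`: it is nilpotent, it is the
logarithm of the action of an element of the inertia group at `Q`, and an open subgroup of the
inertia group acts through the exponentials of multiples of `N`. -/
def IsMonodromy {K : Type} [Field K] {ℓ : ℕ} [Fact ℓ.Prime] {n : ℕ}
    (ρ : AbsGal K →* GL (Fin n) ℚ_[ℓ]) (Q : Ideal (𝓞 (AlgebraicClosure K)))
    (N : Matrix (Fin n) (Fin n) ℚ_[ℓ]) : Prop :=
  IsNilpotent N ∧ ∃ H : Subgroup (AbsGal K), IsOpen (H : Set (AbsGal K)) ∧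
    (∃ g ∈ H, InInertia Q g ∧ mat ρ g = IsNilpotent.exp N) ∧
    ∀ g ∈ H, InInertia Q g → ∃ t : ℚ_[ℓ], mat ρ g = IsNilpotent.exp (t • N)

/-- The weight-monodromy property of the `ℓ`-adic representation `ρ` at `Q`, with the weight `w`
(`q` is the number of elements of the residue field of the place below `Q`). There is a monodromy
operator `N` such that for every geometric Frobenius element `g` at `Q` and every embedding `e` of
`ℚ_ℓ` in `ℂ`, the eigenvalues of `g` have integral weights, and `N ^ j` is a bijection from the part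
of weight `w + j` to the part of weight `w - j`, for every `j ≥ 0`. -/
def WeightMonodromy {K : Type} [Field K] {ℓ : ℕ} [Fact ℓ.Prime] {n : ℕ}
    (ρ : AbsGal K →* GL (Fin n) ℚ_[ℓ]) (w : ℤ) (q : ℕ) (Q : Ideal (𝓞 (AlgebraicClosure K))) :
    Prop :=
  ∃ N : Matrix (Fin n) (Fin n) ℚ_[ℓ], IsMonodromy ρ Q N ∧
    ∀ g, FrobeniusAt Q q g⁻¹ → ∀ e : ℚ_[ℓ] →+* ℂ,
      (∀ z ∈ spectrum ℂ ((mat ρ g).map e), ∃ j : ℤ, ‖z‖ ^ 2 = (q : ℝ) ^ (w + j)) ∧
      ∀ j : ℕ, Set.BijOn (fun x => (N.map e) ^ j *ᵥ x)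
        (weightPart ((mat ρ g).map e) q (w + j)) (weightPart ((mat ρ g).map e) q (w - j))

/-- the kernel of `N ^ a` -/
def kernelOf {F : Type} [Field F] {n : ℕ} (N : Matrix (Fin n) (Fin n) F) (a : ℕ) :
    Submodule F (Fin n → F) where
  carrier := {x | N ^ a *ᵥ x = 0}
  add_mem' := by
    intro x y hx hy
    change N ^ a *ᵥ (x + y) = 0
    rw [Matrix.mulVec_add, show N ^ a *ᵥ x = 0 from hx, show N ^ a *ᵥ y = 0 from hy, add_zero]
  zero_mem' := Matrix.mulVec_zero _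
  smul_mem' := by
    intro c x hx
    change N ^ a *ᵥ (c • x) = 0
    rw [Matrix.mulVec_smul, show N ^ a *ᵥ x = 0 from hx, smul_zero]

/-- `s` is the trace of `g` on the kernel of `N ^ a`: if `A` is the matrix of `g` with respect to a
basis `b` of the kernel then `s = tr A`. -/
def TraceOnKernel {K : Type} [Field K] {F : Type} [Field F] {n : ℕ}
    (ρ : AbsGal K →* GL (Fin n) F) (N : Matrix (Fin n) (Fin n) F) (a : ℕ) (g : AbsGal K) (s : F) :
    Prop :=
  ∃ (r : ℕ) (b : Module.Basis (Fin r) F (kernelOf N a)) (A : Matrix (Fin r) (Fin r) F),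
    (∀ j, mat ρ g *ᵥ (b j : Fin n → F) = ∑ i, A i j • (b i : Fin n → F)) ∧ s = A.trace

/-- The family `V` is strictly compatible and pure of weight `w` at `v` (`Q` is a prime above `v`):
for every prime `ℓ` not below `v` the representation `V_ℓ` satisfies the weight-monodromy property,
and for all `a ≥ 1`, `k ≥ 0` and all `g` in the decomposition group at `Q` which act on the residue
field as the `k`-th power of the geometric Frobenius element the trace of `g` on the kernel of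
`N ^ a` is one rational number for all `ℓ`. -/
def StrictlyCompatibleAt {K : Type} [Field K] [NumberField K] {n : ℕ}
    (V : ∀ (ℓ : ℕ) [Fact ℓ.Prime], AbsGal K →* GL (Fin n) ℚ_[ℓ]) (w : ℤ)
    (v : HeightOneSpectrum (𝓞 K)) (Q : Ideal (𝓞 (AlgebraicClosure K))) : Prop :=
  (∀ (ℓ : ℕ) [Fact ℓ.Prime], (ℓ : 𝓞 K) ∉ v.asIdeal →
    WeightMonodromy (V ℓ) w (Ideal.absNorm v.asIdeal) Q) ∧
  ∀ (a k : ℕ) (g : AbsGal K), 0 < a → FrobeniusAt Q (Ideal.absNorm v.asIdeal ^ k) g⁻¹ →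
    ∃ t : ℚ, ∀ (ℓ : ℕ) [Fact ℓ.Prime], (ℓ : 𝓞 K) ∉ v.asIdeal →
      ∀ N, IsMonodromy (V ℓ) Q N → TraceOnKernel (V ℓ) N a g (t : ℚ_[ℓ])

/-- The traces of the Frobenius elements on `V` and `W` are close to each other, with respect to the
weight `w`: outside a finite set `B` of places the difference of the traces of the geometric
Frobenius elements at `v` on `V_ℓ` and `W_ℓ` is a rational number `a_v` which does not depend on `ℓ`
(not below `v`), and `a_v ^ 2 ≤ C N(v) ^ w`; for a positive integer `d`, the number `d a_v ^ 2` is an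
integral multiple of `N(v) ^ w`, except for the places `v` in a set of lower density `≤ θ`, where
`θ (n ^ 2 + m ^ 2) < 1`. -/
def CloseTraces {K : Type} [Field K] [NumberField K] {n m : ℕ}
    (V : ∀ (ℓ : ℕ) [Fact ℓ.Prime], AbsGal K →* GL (Fin n) ℚ_[ℓ])
    (W : ∀ (ℓ : ℕ) [Fact ℓ.Prime], AbsGal K →* GL (Fin m) ℚ_[ℓ]) (w : ℤ) : Prop :=
  ∃ (B : Set (HeightOneSpectrum (𝓞 K))) (a : HeightOneSpectrum (𝓞 K) → ℚ) (C : ℝ) (d : ℕ) (θ : ℝ),
    B.Finite ∧
    (∀ (ℓ : ℕ) [Fact ℓ.Prime], ∀ v, v ∉ B → (ℓ : 𝓞 K) ∉ v.asIdeal → ∀ Q, LiesAbove v Q →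
      ∀ g, FrobeniusAt Q (Ideal.absNorm v.asIdeal) g →
        (mat (V ℓ) g⁻¹).trace - (mat (W ℓ) g⁻¹).trace = (a v : ℚ_[ℓ])) ∧
    (∀ v, v ∉ B → (a v : ℝ) ^ 2 ≤ C * (Ideal.absNorm v.asIdeal : ℝ) ^ w) ∧
    0 < d ∧ θ * ((n : ℝ) ^ 2 + (m : ℝ) ^ 2) < 1 ∧
    ∃ᶠ x : ℕ in atTop, ({v : HeightOneSpectrum (𝓞 K) | Ideal.absNorm v.asIdeal ≤ x ∧
      ¬ ∃ c : ℤ, (d : ℚ) * a v ^ 2 = (Ideal.absNorm v.asIdeal : ℚ) ^ w * c}.ncard : ℝ) ≤
        θ * Nat.primeCounting x

/-- The formula `tr (g | ker N_V ^ b) = tr (g | ker N_W ^ b) + N(v) ^ (u k) φ(g)` at `Q`, a prime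
above `v`, for all `b ≥ 1`, all `k ≥ 0` and all `g` in the decomposition group at `Q` which act on
the residue field as the `k`-th power of the geometric Frobenius element. -/
def KernelFormula {K : Type} [Field K] [NumberField K] {n m ℓ : ℕ} [Fact ℓ.Prime]
    (V : AbsGal K →* GL (Fin n) ℚ_[ℓ]) (W : AbsGal K →* GL (Fin m) ℚ_[ℓ]) (u : ℤ)
    (φ : AbsGal K → ℚ) (v : HeightOneSpectrum (𝓞 K)) (Q : Ideal (𝓞 (AlgebraicClosure K))) : Prop :=
  ∀ N N', IsMonodromy V Q N → IsMonodromy W Q N' → ∀ (b k : ℕ) (g : AbsGal K),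
    0 < b → FrobeniusAt Q (Ideal.absNorm v.asIdeal ^ k) g⁻¹ → ∀ s s' : ℚ_[ℓ],
    TraceOnKernel W N' b g s' → (TraceOnKernel V N b g s ↔
      s = s' + (((Ideal.absNorm v.asIdeal : ℚ) ^ u) ^ k * φ g : ℚ))

section bridge

open Pool.Agent.J6H90.WT

theorem ws_eq {n : ℕ} (A : Matrix (Fin n) (Fin n) ℂ) (q : ℕ) (w : ℤ) :
    weightPart A q w = (ws A (wt q w) : Set (Fin n → ℂ)) := rfl

theorem wm_of_bij {n : ℕ} {A N : Matrix (Fin n) (Fin n) ℂ} {q : ℕ} {w : ℤ}
    (h1 : ∀ z ∈ spectrum ℂ A, ∃ j : ℤ, ‖z‖ ^ 2 = (q : ℝ) ^ (w + j))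
    (h2 : ∀ j : ℕ, Set.BijOn (fun x => N ^ j *ᵥ x) (weightPart A q (w + j))
      (weightPart A q (w - j))) : WM A N q w := by
  refine ⟨h1, fun j _ => ⟨fun x hx hx0 => ?_, fun y hy => ?_⟩⟩
  · have h0 : (0 : Fin n → ℂ) ∈ weightPart A q (w + j) := (ws A (wt q (w + j))).zero_mem
    refine (h2 j).injOn hx h0 ?_
    rw [hx0, Matrix.mulVec_zero]
  · obtain ⟨x, hx, hxy⟩ := (h2 j).surjOn hy
    exact ⟨x, hx, hxy⟩

theorem bij_of_wm {n : ℕ} {A N : Matrix (Fin n) (Fin n) ℂ} {q : ℕ} (hq : q ≠ 0) {w : ℤ}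
    (hr : N * A = (q : ℂ) • (A * N)) (h : WM A N q w) (j : ℕ) :
    Set.BijOn (fun x => N ^ j *ᵥ x) (weightPart A q (w + j)) (weightPart A q (w - j)) := by
  have hq0 : (q : ℝ) ≠ 0 := Nat.cast_ne_zero.2 hq
  have hstep : ∀ (k : ℤ) (x : Fin n → ℂ), x ∈ ws A (wt q k) → N *ᵥ x ∈ ws A (wt q (k - 2)) := by
    intro k x hx
    have h1 := ws3 n A N q (Nat.cast_ne_zero.2 hq) hr (wt q k) x hx
    have h2 : {z : ℂ | (q : ℂ) * z ∈ wt q k} = wt q (k - 2) := by
      ext z
      change ‖(q : ℂ) * z‖ ^ 2 = (q : ℝ) ^ k ↔ ‖z‖ ^ 2 = (q : ℝ) ^ (k - 2)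
      rw [norm_mul, Complex.norm_natCast, mul_pow, zpow_sub₀ hq0, eq_div_iff (by positivity)]
      rw [mul_comm]
      rfl
    rwa [h2] at h1
  have hpow : ∀ (i : ℕ) (k : ℤ) (x : Fin n → ℂ), x ∈ ws A (wt q k) →
      N ^ i *ᵥ x ∈ ws A (wt q (k - 2 * i)) := by
    intro i
    induction i with
    | zero =>
      intro k x hx
      rw [pow_zero, Matrix.one_mulVec]
      simpa using hx
    | succ i ih =>
      intro k x hx
      have h1 := hstep _ _ (ih k x hx)
      rw [Matrix.mulVec_mulVec, ← pow_succ'] at h1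
      have h2 : k - 2 * (i : ℤ) - 2 = k - 2 * ((i + 1 : ℕ) : ℤ) := by
        push_cast
        ring
      rwa [h2] at h1
  refine ⟨fun x hx => ?_, ?_, ?_⟩
  · have h1 := hpow j (w + j) x hx
    have h2 : w + (j : ℤ) - 2 * j = w - j := by ring
    rw [h2] at h1
    exact h1
  · intro x hx y hy hxy
    rcases Nat.eq_zero_or_pos j with rfl | hj
    · change N ^ 0 *ᵥ x = N ^ 0 *ᵥ y at hxy
      rwa [pow_zero, Matrix.one_mulVec, Matrix.one_mulVec] at hxy
    · have h1 := (h.2 j hj).1 (x - y) (Submodule.sub_mem _ hx hy) (by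
        rw [Matrix.mulVec_sub]
        exact sub_eq_zero.2 hxy)
      exact sub_eq_zero.1 h1
  · intro y hy
    rcases Nat.eq_zero_or_pos j with rfl | hj
    · refine ⟨y, ?_, ?_⟩
      · simpa using hy
      · change N ^ 0 *ᵥ y = y
        rw [pow_zero, Matrix.one_mulVec]
    · obtain ⟨x, hx, hxy⟩ := (h.2 j hj).2 y hy
      exact ⟨x, hx, hxy⟩

theorem kernelOf_eq {F : Type} [Field F] {n : ℕ} (N : Matrix (Fin n) (Fin n) F) (a : ℕ) :
    kernelOf N a = LinearMap.ker (Matrix.toLin' (N ^ a)) := by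
  ext x
  rw [LinearMap.mem_ker, Matrix.toLin'_apply]
  rfl

theorem trace_iff {K : Type} [Field K] {F : Type} [Field F] {n : ℕ}
    (ρ : AbsGal K →* GL (Fin n) F) (N : Matrix (Fin n) (Fin n) F) (a : ℕ) (g : AbsGal K) (s : F) :
    TraceOnKernel ρ N a g s ↔
      TrOn (Pool.Agent.R401.Tr9.mh ρ g) (LinearMap.ker (Matrix.toLin' (N ^ a))) s := by
  rw [← kernelOf_eq]
  exact Iff.rfl

theorem mono_of {K : Type} [Field K] [NumberField K] {ℓ : ℕ} [Fact ℓ.Prime] {n : ℕ}
    {ρ : AbsGal K →* GL (Fin n) ℚ_[ℓ]} {w : ℤ} {q : ℕ} {Q : Ideal (𝓞 (AlgebraicClosure K))}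
    (h : WeightMonodromy ρ w q Q) : MonoWM (Pool.Agent.R401.Tr9.mh ρ) w q Q := by
  obtain ⟨N, ⟨hN, H, hH, h1, h2⟩, h3⟩ := h
  refine ⟨N, H, hN, hH, h1, h2, fun g hg e => ?_⟩
  have h4 := h3 g⁻¹ (by rw [inv_inv]; exact hg) e
  exact wm_of_bij h4.1 h4.2

end bridge

/-- **Transfer of strict compatibility.** -/
theorem result {K : Type} [Field K] [NumberField K] {n m : ℕ}
    (V : ∀ (ℓ : ℕ) [Fact ℓ.Prime], AbsGal K →* GL (Fin n) ℚ_[ℓ])
    (hV : ∀ (ℓ : ℕ) [Fact ℓ.Prime], Continuous (V ℓ))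
    (W : ∀ (ℓ : ℕ) [Fact ℓ.Prime], AbsGal K →* GL (Fin m) ℚ_[ℓ])
    (hW : ∀ (ℓ : ℕ) [Fact ℓ.Prime], Continuous (W ℓ))
    (hss : ∀ (ℓ : ℕ) [Fact ℓ.Prime], Semisimple (W ℓ)) (w : ℤ) (hVW : CloseTraces V W w) :
    ∃ (u : ℤ) (φ : AbsGal K → ℚ) (U : Subgroup (AbsGal K)), (w = 2 * u ∨ ∀ g, φ g = 0) ∧
      U.Normal ∧ IsOpen (U : Set (AbsGal K)) ∧ (∀ x ∈ U, ∀ g, φ (x * g) = φ g) ∧
      ∀ (v : HeightOneSpectrum (𝓞 K)) (Q : Ideal (𝓞 (AlgebraicClosure K))), LiesAbove v Q →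
        (∀ (ℓ : ℕ) [Fact ℓ.Prime], (ℓ : 𝓞 K) ∉ v.asIdeal →
          WeightMonodromy (W ℓ) w (Ideal.absNorm v.asIdeal) Q →
          WeightMonodromy (V ℓ) w (Ideal.absNorm v.asIdeal) Q ∧
            KernelFormula (V ℓ) (W ℓ) u φ v Q) ∧
        (StrictlyCompatibleAt W w v Q → StrictlyCompatibleAt V w v Q) := by
  obtain ⟨B, a, C, d, θ, hB, htr, hC, hd, hθ, hdiv⟩ := hVW
  open Pool.Agent.J6H90.WT in
  have hcyc : S_CYC := cyc cycfin log
  have hrel : S_REL := rel log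
  have hstab : S_STAB := stab ws3 ws5
  have hwmt : S_WMT := wmt ws1 ws2 ws3 ws4 ws5 ws6 dk di
  have hkta : S_KTA := kta ws1 ws2 ws3 ws4 ws5 ws6 trk hstab hwmt
  obtain ⟨u, φ, U, hw, hUn, hUo, hU, hφ⟩ := Pool.Agent.R401.Tr7.family V hV W hW B hB a w (by
      rintro ℓ _ v hv hℓ g ⟨Q, hQ, hQv, hg⟩
      exact htr ℓ v hv hℓ Q ⟨hQ, hQv⟩ g hg) C hC θ hθ hd (by
      refine (hdiv.and_eventually (Nat.tendsto_primeCounting.eventually_gt_atTop 0)).mono ?_
      rintro N ⟨h1, h3⟩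
      have h4 : (0 : ℝ) < (Nat.primeCounting N : ℝ) := by exact_mod_cast h3
      unfold Pool.Agent.W401.Cheb.dens
      rw [div_le_iff₀ h4]
      exact h1)
  refine ⟨u, φ, U, hw, hUn, hUo, hU, fun v Q hQ => ?_⟩
  have hq : 2 ≤ Ideal.absNorm v.asIdeal := by
    have h0 : Ideal.absNorm v.asIdeal ≠ 0 := fun h0 => v.ne_bot (Ideal.absNorm_eq_zero_iff.1 h0)
    have h1 : Ideal.absNorm v.asIdeal ≠ 1 := fun h1 =>
      v.isPrime.ne_top (Ideal.absNorm_eq_one_iff.1 h1)
    omega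
  have hq0 : Ideal.absNorm v.asIdeal ≠ 0 := by omega
  have hQℓ : ∀ ℓ : ℕ, (ℓ : 𝓞 (AlgebraicClosure K)) ∈ Q ↔ (ℓ : 𝓞 K) ∈ v.asIdeal := by
    intro ℓ
    rw [← hQ.2, Ideal.mem_comap, map_natCast]
  have hQm := hQ.1
  obtain ⟨σ, hσ⟩ := Pool.Agent.W352.ChAbs.exists_frob v Q hQ.2
  have hfirst : ∀ (ℓ : ℕ) [Fact ℓ.Prime], (ℓ : 𝓞 K) ∉ v.asIdeal →
      WeightMonodromy (W ℓ) w (Ideal.absNorm v.asIdeal) Q →
      WeightMonodromy (V ℓ) w (Ideal.absNorm v.asIdeal) Q ∧
        KernelFormula (V ℓ) (W ℓ) u φ v Q := by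
    intro ℓ _ hℓ hWM
    have hℓQ : (ℓ : 𝓞 (AlgebraicClosure K)) ∉ Q := fun h' => hℓ ((hQℓ ℓ).1 h')
    obtain ⟨H, τ0, NV, NW, hHU, hLD⟩ := exists_LD log hcyc hrel
      (V := Pool.Agent.R401.Tr9.mh (V ℓ)) (Pool.Agent.R401.Sup.continuous_mt (V ℓ) (hV ℓ))
      (W := Pool.Agent.R401.Tr9.mh (W ℓ)) (Pool.Agent.R401.Sup.continuous_mt (W ℓ) (hW ℓ))
      hUn hUo hU (hφ ℓ) hQ.1 (by omega : 1 ≤ Ideal.absNorm v.asIdeal) hσ hℓQ (mono_of hWM)
    refine ⟨?_, ?_⟩
    · refine ⟨NV, hLD.isMonoV, fun g hg e => ?_⟩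
      have h4 := hLD.hVq g⁻¹ hg
      have h6 : WM ((Pool.Agent.R401.Tr9.mh (V ℓ) g⁻¹⁻¹).map e) (NV.map e)
          (Ideal.absNorm v.asIdeal) w :=
        hwmt _ n m (mc e (Pool.Agent.R401.Tr9.mh (V ℓ))) (mc e (Pool.Agent.R401.Tr9.mh (W ℓ)))
          (cc e u) H g⁻¹ τ0 H.index _ w (NV.map e) (NW.map e)
          (dat hU (hφ ℓ) hQ.1 hq hg hℓQ hw hHU hLD (nondeg (W ℓ) (hss ℓ)) bc e)
          (hLD.hWM g⁻¹ hg e)
      rw [inv_inv] at h4 h6
      refine ⟨h6.1, fun j => bij_of_wm hq0 ?_ h6 j⟩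
      rw [← mul_map, h4, smul_map, mul_map, map_natCast]
    · intro N N' hN hN' b k g hb hg s s' hs'
      rw [trace_iff] at hs' ⊢
      exact sc_local hU (hφ ℓ) hQ.1 hq hσ hℓQ hw hHU hLD (nondeg (W ℓ) (hss ℓ)) bc hkta log hb
        hg hN hN' hs' s
  refine ⟨hfirst, ?_⟩
  rintro ⟨hW1, hW2⟩
  refine ⟨fun ℓ _ hℓ => (hfirst ℓ hℓ (hW1 ℓ hℓ)).1, fun b k g hb hg => ?_⟩
  obtain ⟨t, ht⟩ := hW2 b k g hb hg
  refine ⟨t + ((Ideal.absNorm v.asIdeal : ℚ) ^ u) ^ k * φ g, fun ℓ _ hℓ N hN => ?_⟩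
  obtain ⟨N', hN', -⟩ := hW1 ℓ hℓ
  refine ((hfirst ℓ hℓ (hW1 ℓ hℓ)).2 N N' hN hN' b k g hb hg _ _ (ht ℓ hℓ N' hN')).2 ?_
  push_cast
  ring

end Pool.Agent.Results.MP_898f40_nt.StrictCompatibility
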