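import Pool.Agent.J6H90.WT.Fin
import Pool.Agent.J6H90.WT.PWS
import Pool.Agent.J6H90.WT.PDUAL
import Pool.Agent.J6H90.WT.PBC
import Pool.Agent.J6H90.WT.PTRK
import Pool.Agent.J6H90.WT.PLOG
import Pool.Agent.J6H90.WT.PWMT
import Pool.Agent.J6H90.WT.PKT
import Pool.Agent.J6H90.WT.PREL
import Pool.Agent.J6H90.WT.PCYCFIN
import Pool.Agent.J6H90.WT.PCYC

/-!
# Transfer of the weight-monodromy property and of local Euler factors, at all places

Let `K` be a number field (for example `ℚ`) and let `V_ℓ` and `W_ℓ`, for all primes `ℓ`, be the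
`ℓ`-adic realisations, in degrees of the same weight `w`, of two motives `M` and `N` over `K`. At
the places `v` outside a finite set the difference `a_v` of the traces of the geometric Frobenius
elements on `V_ℓ` and `W_ℓ` is a rational number which does not depend on `ℓ`, and
`a_v ^ 2 ≤ C N(v) ^ w` (Deligne; Katz and Messing). The `W_ℓ` are assumed to be semisimple, but not
the `V_ℓ`. No assumption is made on the action of the inertia groups on `V_ℓ`.

Suppose that the traces for `M` and `N` are close to each other at most places: for a positive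
integer `d`, the number `d a_v ^ 2` is an integral multiple of `N(v) ^ w` for `v` in a set of upper
density larger than `1 - 1 / (n ^ 2 + m ^ 2)`, where `n` and `m` are the ranks. (This holds for
example if the traces are equal at most places, or congruent modulo `N(v) ^ (w / 2)`.)

Then, at *every* finite place `v` of `K`, of good or bad reduction for `M` and `N`:

* for every prime `ℓ` not below `v`, if `W_ℓ` satisfies the weight-monodromy conjecture at `v` then
  `V_ℓ` satisfies it;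
* if `W_ℓ` satisfies the weight-monodromy conjecture at `v` for all `ℓ` not below `v`, and the local
  factor `det (1 - F_v T | W_ℓ ^ I_v)` is one polynomial with rational coefficients for all these
  `ℓ`, then the local factor `det (1 - F_v T | V_ℓ ^ I_v)` is one polynomial with rational
  coefficients for all these `ℓ`;
* if, moreover, `w ≥ 0` and the local factor of `N` at `v` has integral coefficients, then the local
  factor of `M` at `v` has integral coefficients.

For `N` one can take everything that is built from abelian varieties, at all places. The local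
factors of `M` and `N` at `v` are different in general.

Proof. The difference of the traces on `V_ℓ (w / 2)` and `W_ℓ (w / 2)` is constant on the cosets of
an open subgroup `U` which is independent of `ℓ` (Chebotarev's theorem for closed sets, Burnside's
counting argument, the trace form). So traces of elements of the group algebras of `V_ℓ` and `W_ℓ`
which involve only the weights different from `w` agree. As the trace form of `W_ℓ` is
nondegenerate, this gives the bijectivity of the powers of the monodromy operator of `V_ℓ` between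
the parts of the weights `w + j` and `w - j`. By the weight-monodromy property the trace of a
Frobenius element on the kernel of the monodromy operator is an alternating sum of the traces on
the parts of weight `≤ w` and `≤ w - 2`; so `tr (F ^ k | V_ℓ ^ I_v) - tr (F ^ k | W_ℓ ^ I_v)` is
the average of the difference of the traces over the inertia group, a rational number independent
of `ℓ`.
-/

set_option autoImplicit false

namespace Pool.Agent.Results.MP_898f40_nt.TransferAllPlaces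

open NumberField IsDedekindDomain Filter Matrix Polynomial

/-- the absolute Galois group of the field `K`, with the Krull topology -/
abbrev AbsGal (K : Type) [Field K] : Type := Gal(AlgebraicClosure K/K)

section
variable {K : Type} [Field K]

/-- `g` belongs to the inertia group at the ideal `Q` of the ring of all algebraic integers. -/
def InInertia (Q : Ideal (𝓞 (AlgebraicClosure K))) (g : AbsGal K) : Prop :=
  ∀ x : 𝓞 (AlgebraicClosure K), g • x - x ∈ Q

/-- `g` is an arithmetic Frobenius element at `Q`, for a residue field with `q` elements of the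
place below `Q`. -/
def FrobeniusAt (Q : Ideal (𝓞 (AlgebraicClosure K))) (q : ℕ) (g : AbsGal K) : Prop :=
  ∀ x : 𝓞 (AlgebraicClosure K), g • x - x ^ q ∈ Q

/-- `Q` is a maximal ideal of the ring of all algebraic integers which lies above the finite
place `v` of `K`. -/
def LiesAbove [NumberField K] (v : HeightOneSpectrum (𝓞 K))
    (Q : Ideal (𝓞 (AlgebraicClosure K))) : Prop :=
  Q.IsMaximal ∧ Q.comap (algebraMap (𝓞 K) (𝓞 (AlgebraicClosure K))) = v.asIdeal

/-- the matrix of `g` -/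
noncomputable def mat {F : Type} [Field F] {n : ℕ} (ρ : AbsGal K →* GL (Fin n) F) (g : AbsGal K) :
    Matrix (Fin n) (Fin n) F :=
  (ρ g : GL (Fin n) F)

/-- The representation `ρ` is semisimple: every stable subspace has a stable complement. -/
def Semisimple {F : Type} [Field F] {n : ℕ} (ρ : AbsGal K →* GL (Fin n) F) : Prop :=
  ∀ S : Submodule F (Fin n → F), (∀ g, ∀ x ∈ S, mat ρ g *ᵥ x ∈ S) →
    ∃ T : Submodule F (Fin n → F), (∀ g, ∀ x ∈ T, mat ρ g *ᵥ x ∈ T) ∧ IsCompl S T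

/-- the vectors which are fixed by the inertia group at `Q` -/
def invariants {F : Type} [Field F] {n : ℕ} (ρ : AbsGal K →* GL (Fin n) F)
    (Q : Ideal (𝓞 (AlgebraicClosure K))) : Submodule F (Fin n → F) where
  carrier := {x | ∀ g, InInertia Q g → mat ρ g *ᵥ x = x}
  add_mem' := by
    intro x y hx hy g hg
    rw [Matrix.mulVec_add, hx g hg, hy g hg]
  zero_mem' := by
    intro g _
    rw [Matrix.mulVec_zero]
  smul_mem' := by
    intro c x hx g hg
    rw [Matrix.mulVec_smul, hx g hg]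

/-- `f` is the polynomial `det (1 - g T)` of `g` on the invariants of the inertia group at `Q`: if
`A` is the matrix of `g` with respect to a basis `b` of the invariants then `f = det (1 - A T)`. -/
def IsLocalFactor {F : Type} [Field F] {n : ℕ} (ρ : AbsGal K →* GL (Fin n) F)
    (Q : Ideal (𝓞 (AlgebraicClosure K))) (g : AbsGal K) (f : F[X]) : Prop :=
  ∃ (m : ℕ) (b : Module.Basis (Fin m) F (invariants ρ Q)) (A : Matrix (Fin m) (Fin m) F),
    (∀ j, mat ρ g *ᵥ (b j : Fin n → F) = ∑ i, A i j • (b i : Fin n → F)) ∧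
    f = (1 - (X : F[X]) • A.map C).det

/-- For all primes `ℓ` not below `v` the local factor of `V_ℓ` at `v` is the polynomial `P` with
rational coefficients. (`Q` is a prime above `v` and `g` a geometric Frobenius element at `Q`.) -/
def LocalFactorIs [NumberField K] {n : ℕ}
    (V : ∀ (ℓ : ℕ) [Fact ℓ.Prime], AbsGal K →* GL (Fin n) ℚ_[ℓ]) (v : HeightOneSpectrum (𝓞 K))
    (Q : Ideal (𝓞 (AlgebraicClosure K))) (g : AbsGal K) (P : ℚ[X]) : Prop :=
  ∀ (ℓ : ℕ) [Fact ℓ.Prime], (ℓ : 𝓞 K) ∉ v.asIdeal → ∀ f : ℚ_[ℓ][X],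
    IsLocalFactor (V ℓ) Q g f ↔ f = P.map (algebraMap ℚ ℚ_[ℓ])

end

/-- The part of weight `w` of the matrix `A`, for a residue field with `q` elements: the sum of the
generalised eigenspaces for the eigenvalues `z` with `|z| ^ 2 = q ^ w`, that is, the vectors which
are annihilated by a nonzero polynomial in `A` all of whose roots `z` satisfy `|z| ^ 2 = q ^ w`. -/
def weightPart {n : ℕ} (A : Matrix (Fin n) (Fin n) ℂ) (q : ℕ) (w : ℤ) : Set (Fin n → ℂ) :=
  {x | ∃ p : ℂ[X], p ≠ 0 ∧ (∀ z, p.IsRoot z → ‖z‖ ^ 2 = (q : ℝ) ^ w) ∧ aeval A p *ᵥ x = 0}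

/-- The weight-monodromy property of the `ℓ`-adic representation `ρ` at `Q`, with the weight `w`
(`q` is the number of elements of the residue field of the place below `Q`). The monodromy operator
`N` is the logarithm of the action of an element of the inertia group at `Q` such that an open
subgroup of the inertia group acts through the exponentials of multiples of `N`. For every geometric
Frobenius element `g` at `Q` and every embedding `e` of `ℚ_ℓ` in `ℂ`, the eigenvalues of `g` have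
integral weights, and `N ^ j` is a bijection from the part of weight `w + j` to the part of weight
`w - j`, for every `j ≥ 0`. -/
def WeightMonodromy {K : Type} [Field K] {ℓ : ℕ} [Fact ℓ.Prime] {n : ℕ}
    (ρ : AbsGal K →* GL (Fin n) ℚ_[ℓ]) (w : ℤ) (q : ℕ) (Q : Ideal (𝓞 (AlgebraicClosure K))) :
    Prop :=
  ∃ (N : Matrix (Fin n) (Fin n) ℚ_[ℓ]) (H : Subgroup (AbsGal K)),
    IsNilpotent N ∧ IsOpen (H : Set (AbsGal K)) ∧
    (∃ g ∈ H, InInertia Q g ∧ mat ρ g = IsNilpotent.exp N) ∧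
    (∀ g ∈ H, InInertia Q g → ∃ t : ℚ_[ℓ], mat ρ g = IsNilpotent.exp (t • N)) ∧
    ∀ g, FrobeniusAt Q q g⁻¹ → ∀ e : ℚ_[ℓ] →+* ℂ,
      (∀ z ∈ spectrum ℂ ((mat ρ g).map e), ∃ j : ℤ, ‖z‖ ^ 2 = (q : ℝ) ^ (w + j)) ∧
      ∀ j : ℕ, Set.BijOn (fun x => (N.map e) ^ j *ᵥ x)
        (weightPart ((mat ρ g).map e) q (w + j)) (weightPart ((mat ρ g).map e) q (w - j))

section bridge

open Pool.Agent.J6H90.WT

theorem ws_eq {n : ℕ} (A : Matrix (Fin n) (Fin n) ℂ) (q : ℕ) (w : ℤ) :
    weightPart A q w = (ws A (wt q w) : Set (Fin n → ℂ)) := rfl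

theorem wm_of_bij {n : ℕ} {A N : Matrix (Fin n) (Fin n) ℂ} {q : ℕ} {w : ℤ}
    (h1 : ∀ z ∈ spectrum ℂ A, ∃ j : ℤ, ‖z‖ ^ 2 = (q : ℝ) ^ (w + j))
    (h2 : ∀ j : ℕ, Set.BijOn (fun x => N ^ j *ᵥ x) (weightPart A q (w + j))
      (weightPart A q (w - j))) : WM A N q w := by
  refine ⟨h1, fun j _ => ⟨fun x hx hx0 => ?_, fun y hy => ?_⟩⟩
  · have h0 : (0 : Fin n → ℂ) ∈ weightPart A q (w + j) := (ws A (wt q (w + j))).zero_mem
    refine (h2 j).injOn hx h0 ?_
    rw [hx0, Matrix.mulVec_zero]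
  · obtain ⟨x, hx, hxy⟩ := (h2 j).surjOn hy
    exact ⟨x, hx, hxy⟩

theorem bij_of_wm {n : ℕ} {A N : Matrix (Fin n) (Fin n) ℂ} {q : ℕ} (hq : q ≠ 0) {w : ℤ}
    (hr : N * A = (q : ℂ) • (A * N)) (h : WM A N q w) (j : ℕ) :
    Set.BijOn (fun x => N ^ j *ᵥ x) (weightPart A q (w + j)) (weightPart A q (w - j)) := by
  have hq0 : (q : ℝ) ≠ 0 := Nat.cast_ne_zero.2 hq
  have hstep : ∀ (k : ℤ) (x : Fin n → ℂ), x ∈ ws A (wt q k) → N *ᵥ x ∈ ws A (wt q (k - 2)) := by
    intro k x hx
    have h1 := ws3 n A N q (Nat.cast_ne_zero.2 hq) hr (wt q k) x hx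
    have h2 : {z : ℂ | (q : ℂ) * z ∈ wt q k} = wt q (k - 2) := by
      ext z
      change ‖(q : ℂ) * z‖ ^ 2 = (q : ℝ) ^ k ↔ ‖z‖ ^ 2 = (q : ℝ) ^ (k - 2)
      rw [norm_mul, Complex.norm_natCast, mul_pow, zpow_sub₀ hq0, eq_div_iff (by positivity)]
      rw [mul_comm]
      rfl
    rwa [h2] at h1
  have hpow : ∀ (i : ℕ) (k : ℤ) (x : Fin n → ℂ), x ∈ ws A (wt q k) →
      N ^ i *ᵥ x ∈ ws A (wt q (k - 2 * i)) := by
    intro i
    induction i with
    | zero =>
      intro k x hx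
      rw [pow_zero, Matrix.one_mulVec]
      simpa using hx
    | succ i ih =>
      intro k x hx
      have h1 := hstep _ _ (ih k x hx)
      rw [Matrix.mulVec_mulVec, ← pow_succ'] at h1
      have h2 : k - 2 * (i : ℤ) - 2 = k - 2 * ((i + 1 : ℕ) : ℤ) := by
        push_cast
        ring
      rwa [h2] at h1
  refine ⟨fun x hx => ?_, ?_, ?_⟩
  · have h1 := hpow j (w + j) x hx
    have h2 : w + (j : ℤ) - 2 * j = w - j := by ring
    rw [h2] at h1
    exact h1
  · intro x hx y hy hxy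
    rcases Nat.eq_zero_or_pos j with rfl | hj
    · change N ^ 0 *ᵥ x = N ^ 0 *ᵥ y at hxy
      rwa [pow_zero, Matrix.one_mulVec, Matrix.one_mulVec] at hxy
    · have h1 := (h.2 j hj).1 (x - y) (Submodule.sub_mem _ hx hy) (by
        rw [Matrix.mulVec_sub]
        exact sub_eq_zero.2 hxy)
      exact sub_eq_zero.1 h1
  · intro y hy
    rcases Nat.eq_zero_or_pos j with rfl | hj
    · refine ⟨y, ?_, ?_⟩
      · simpa using hy
      · change N ^ 0 *ᵥ y = y
        rw [pow_zero, Matrix.one_mulVec]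
    · obtain ⟨x, hx, hxy⟩ := (h.2 j hj).2 y hy
      exact ⟨x, hx, hxy⟩

theorem mono_of {K : Type} [Field K] [NumberField K] {ℓ : ℕ} [Fact ℓ.Prime] {n : ℕ}
    {ρ : AbsGal K →* GL (Fin n) ℚ_[ℓ]} {w : ℤ} {q : ℕ} {Q : Ideal (𝓞 (AlgebraicClosure K))}
    (h : WeightMonodromy ρ w q Q) : MonoWM (Pool.Agent.R401.Tr9.mh ρ) w q Q := by
  obtain ⟨N, H, hN, hH, h1, h2, h3⟩ := h
  refine ⟨N, H, hN, hH, h1, h2, fun g hg e => ?_⟩
  have h4 := h3 g⁻¹ (by rw [inv_inv]; exact hg) e
  exact wm_of_bij h4.1 h4.2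

end bridge

/-- **Transfer of the weight-monodromy property and of local Euler factors.** -/
theorem result {K : Type} [Field K] [NumberField K] {n m : ℕ}
    (V : ∀ (ℓ : ℕ) [Fact ℓ.Prime], AbsGal K →* GL (Fin n) ℚ_[ℓ])
    (hV : ∀ (ℓ : ℕ) [Fact ℓ.Prime], Continuous (V ℓ))
    (W : ∀ (ℓ : ℕ) [Fact ℓ.Prime], AbsGal K →* GL (Fin m) ℚ_[ℓ])
    (hW : ∀ (ℓ : ℕ) [Fact ℓ.Prime], Continuous (W ℓ))
    (hss : ∀ (ℓ : ℕ) [Fact ℓ.Prime], Semisimple (W ℓ)) (w : ℤ)
    -- the exceptional places, and the differences of the traces at the other places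
    (B : Set (HeightOneSpectrum (𝓞 K))) (hB : B.Finite) (a : HeightOneSpectrum (𝓞 K) → ℚ)
    (htr : ∀ (ℓ : ℕ) [Fact ℓ.Prime], ∀ v, v ∉ B → (ℓ : 𝓞 K) ∉ v.asIdeal → ∀ Q, LiesAbove v Q →
      ∀ g, FrobeniusAt Q (Ideal.absNorm v.asIdeal) g →
        (mat (V ℓ) g⁻¹).trace - (mat (W ℓ) g⁻¹).trace = (a v : ℚ_[ℓ]))
    (C : ℝ) (hC : ∀ v, v ∉ B → (a v : ℝ) ^ 2 ≤ C * (Ideal.absNorm v.asIdeal : ℝ) ^ w)
    -- most differences are divisible, up to a bounded denominator
    (d : ℕ) (hd : 0 < d) (θ : ℝ) (hθ : θ * ((n : ℝ) ^ 2 + (m : ℝ) ^ 2) < 1)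
    (hdiv : ∃ᶠ x : ℕ in atTop, ({v : HeightOneSpectrum (𝓞 K) | Ideal.absNorm v.asIdeal ≤ x ∧
      ¬ ∃ c : ℤ, (d : ℚ) * a v ^ 2 = (Ideal.absNorm v.asIdeal : ℚ) ^ w * c}.ncard : ℝ) ≤
        θ * Nat.primeCounting x)
    -- an arbitrary finite place
    (v : HeightOneSpectrum (𝓞 K)) (Q : Ideal (𝓞 (AlgebraicClosure K))) (hQ : LiesAbove v Q) :
    (∀ (ℓ : ℕ) [Fact ℓ.Prime], (ℓ : 𝓞 K) ∉ v.asIdeal →
      WeightMonodromy (W ℓ) w (Ideal.absNorm v.asIdeal) Q →
        WeightMonodromy (V ℓ) w (Ideal.absNorm v.asIdeal) Q) ∧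
    ((∀ (ℓ : ℕ) [Fact ℓ.Prime], (ℓ : 𝓞 K) ∉ v.asIdeal →
        WeightMonodromy (W ℓ) w (Ideal.absNorm v.asIdeal) Q) →
      ∀ g, FrobeniusAt Q (Ideal.absNorm v.asIdeal) g⁻¹ →
        ∀ P : ℚ[X], LocalFactorIs W v Q g P → ∃ P' : ℚ[X], LocalFactorIs V v Q g P' ∧
          (0 ≤ w → (∃ R : ℤ[X], P = R.map (Int.castRingHom ℚ)) →
            ∃ R : ℤ[X], P' = R.map (Int.castRingHom ℚ))) := by
  open Pool.Agent.J6H90.WT in
  have hcyc : S_CYC := cyc cycfin log
  have hrel : S_REL := rel log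
  have hstab : S_STAB := stab ws3 ws5
  have hwmt : S_WMT := wmt ws1 ws2 ws3 ws4 ws5 ws6 dk di
  have hkt : S_KT := kt ws1 ws2 ws3 ws4 ws5 ws6 trk hstab hwmt
  obtain ⟨u, φ, U, hw, hUn, hUo, hU, hφ⟩ := Pool.Agent.R401.Tr7.family V hV W hW B hB a w (by
      rintro ℓ _ v hv hℓ g ⟨Q, hQ, hQv, hg⟩
      exact htr ℓ v hv hℓ Q ⟨hQ, hQv⟩ g hg) C hC θ hθ hd (by
      refine (hdiv.and_eventually (Nat.tendsto_primeCounting.eventually_gt_atTop 0)).mono ?_
      rintro N ⟨h1, h3⟩
      have h4 : (0 : ℝ) < (Nat.primeCounting N : ℝ) := by exact_mod_cast h3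
      unfold Pool.Agent.W401.Cheb.dens
      rw [div_le_iff₀ h4]
      exact h1)
  have hq : 2 ≤ Ideal.absNorm v.asIdeal := by
    have h0 : Ideal.absNorm v.asIdeal ≠ 0 := fun h0 => v.ne_bot (Ideal.absNorm_eq_zero_iff.1 h0)
    have h1 : Ideal.absNorm v.asIdeal ≠ 1 := fun h1 =>
      v.isPrime.ne_top (Ideal.absNorm_eq_one_iff.1 h1)
    omega
  have hq0 : Ideal.absNorm v.asIdeal ≠ 0 := by omega
  have hQℓ : ∀ ℓ : ℕ, (ℓ : 𝓞 (AlgebraicClosure K)) ∈ Q ↔ (ℓ : 𝓞 K) ∈ v.asIdeal := by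
    intro ℓ
    rw [← hQ.2, Ideal.mem_comap, map_natCast]
  have hcast : ∀ (L : Type) [Field L] [CharZero L] (f : ℚ →+* L), Rat.castHom L = f :=
    fun L _ _ f => Subsingleton.elim _ _
  have hQm := hQ.1
  constructor
  · intro ℓ _ hℓ hWM
    have hℓQ : (ℓ : 𝓞 (AlgebraicClosure K)) ∉ Q := fun h' => hℓ ((hQℓ ℓ).1 h')
    obtain ⟨σ, hσ⟩ := Pool.Agent.W352.ChAbs.exists_frob v Q hQ.2
    obtain ⟨N, H, hN, hH, h1, h2, h3⟩ := wm_fam log hcyc hrel bc hwmt
      (V := Pool.Agent.R401.Tr9.mh (V ℓ)) (Pool.Agent.R401.Sup.continuous_mt (V ℓ) (hV ℓ))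
      (W := Pool.Agent.R401.Tr9.mh (W ℓ)) (Pool.Agent.R401.Sup.continuous_mt (W ℓ) (hW ℓ))
      hUn hUo hU (hφ ℓ) hQ.1 hq hσ hℓQ hw (mono_of hWM) (nondeg (W ℓ) (hss ℓ))
    refine ⟨N, H, hN, hH, h1, h2, fun g hg e => ?_⟩
    obtain ⟨h4, h5⟩ := h3 g⁻¹ hg
    have h6 := h5 e
    rw [inv_inv] at h4 h6
    refine ⟨h6.1, fun j => bij_of_wm hq0 ?_ h6 j⟩
    rw [← mul_map, h4, smul_map, mul_map, map_natCast]
  · intro hWM g hg P hP
    obtain ⟨P', hP', hint⟩ := loc log expk hcyc hrel bc hkt V hV W hW hss u φ U hUn hUo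
      hU hφ hw hQ.1 hq hg
      (fun ℓ _ hℓ => mono_of (hWM ℓ fun h' => hℓ ((hQℓ ℓ).2 h')))
      (fun ℓ _ => invariants (V ℓ) Q) (fun ℓ _ x => Iff.rfl)
      (fun ℓ _ => invariants (W ℓ) Q) (fun ℓ _ x => Iff.rfl) P (by
        intro ℓ _ hℓ r b A hA
        rw [inv_inv] at hA
        rw [hcast ℚ_[ℓ] (algebraMap ℚ ℚ_[ℓ])]
        exact (hP ℓ (fun h' => hℓ ((hQℓ ℓ).2 h')) _).1 ⟨r, b, A, hA, rfl⟩)
    rw [inv_inv] at hP'
    refine ⟨P', ?_, hint⟩
    intro ℓ _ hℓ f
    have hℓQ : (ℓ : 𝓞 (AlgebraicClosure K)) ∉ Q := fun h' => hℓ ((hQℓ ℓ).1 h')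
    constructor
    · rintro ⟨m, b, A, hA, rfl⟩
      rw [← hcast ℚ_[ℓ] (algebraMap ℚ ℚ_[ℓ])]
      exact hP' ℓ hℓQ m b A hA
    · rintro rfl
      obtain ⟨m, b, A, hA⟩ := Pool.Agent.R401.Tr6.exists_basis (V ℓ) hq hg
        (fun x => (Iff.rfl : x ∈ invariants (V ℓ) Q ↔ _))
      rw [inv_inv] at hA
      refine ⟨m, b, A, hA, ?_⟩
      rw [← hcast ℚ_[ℓ] (algebraMap ℚ ℚ_[ℓ])]
      exact (hP' ℓ hℓQ m b A hA).symm

end Pool.Agent.Results.MP_898f40_nt.TransferAllPlaces
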